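import Mathlib

/-!
Project BM (MP_28f8a1_an), helper820: statements which only need Mathlib.
-/

set_option autoImplicit false

open Topology Filter Metric Set

namespace Pool.Agent.W820.BM

/-- Squared Euclidean norm. -/
noncomputable def nsq {n : ℕ} (w : Fin n → ℂ) : ℝ := ∑ i, ‖w i‖ ^ 2

/-- TC: three circles theorem for a holomorphic map with as many components as variables. -/
def S_TC : Prop :=
  ∀ (n : ℕ) (Ω : Set (Fin n → ℂ)) (Φ : (Fin n → ℂ) → (Fin n → ℂ)) (h : (Fin n → ℂ) → ℂ)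
    (R R₀ r M κ : ℝ), IsOpen Ω → Differentiable ℂ Φ → DifferentiableOn ℂ h Ω →
    0 < r → r ≤ R₀ → R₀ < R → 0 ≤ M → M < κ * Real.log (R / R₀) →
    IsCompact {v | nsq (Φ v) ≤ R ^ 2} → {v | nsq (Φ v) ≤ R ^ 2} ⊆ Ω →
    (∀ v, nsq (Φ v) ≤ R ^ 2 → (h v).re ≤ M) →
    ∀ v₀, nsq (Φ v₀) ≤ R₀ ^ 2 → (h v₀).re = 0 →
    ∃ v, nsq (Φ v) ≤ r ^ 2 ∧ -(κ * Real.log (R₀ / r)) ≤ (h v).re

/-- SH: the maximum over a polyhedron is almost attained on the distinguished boundary. -/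
def S_SH : Prop :=
  ∀ (n : ℕ) (Ω : Set (Fin n → ℂ)) (Φ : (Fin n → ℂ) → (Fin n → ℂ)) (h : (Fin n → ℂ) → ℂ)
    (r : Fin n → ℝ) (σ : ℝ), IsOpen Ω → Differentiable ℂ Φ → DifferentiableOn ℂ h Ω →
    (∀ i, 0 < r i) → 0 < σ → σ < 1 →
    IsCompact {v | ∀ i, ‖Φ v i‖ ≤ (1 + σ) * r i} → {v | ∀ i, ‖Φ v i‖ ≤ (1 + σ) * r i} ⊆ Ω →
    ∀ v₀, (∀ i, ‖Φ v₀ i‖ ≤ r i) →
    ∃ v, (∀ i, (1 - σ) * r i ≤ ‖Φ v i‖ ∧ ‖Φ v i‖ ≤ (1 + σ) * r i) ∧ (h v₀).re - σ ≤ (h v).re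

/-- NM: criterion for not being a local maximum along a complex line. -/
theorem no_max {F : ℂ → ℂ} {w : ℂ → ℝ} {ε c : ℝ} (hε : 0 < ε) (hc : 0 < c)
    (hF : DifferentiableOn ℂ F (closedBall 0 ε)) (h0 : w 0 = (F 0).re)
    (hw : ∀ t : ℂ, ‖t‖ = ε → (F t).re + c ≤ w t) : ∃ t : ℂ, ‖t‖ = ε ∧ w 0 < w t := by
  by_contra hcon
  push Not at hcon
  have h1 : ∀ t : ℂ, ‖t‖ = ε → ‖Complex.exp (F t)‖ ≤ Real.exp ((F 0).re - c) := by
    intro t ht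
    rw [Complex.norm_exp]
    apply Real.exp_le_exp.mpr
    have := hw t ht
    have := hcon t ht
    linarith
  have h2 : DiffContOnCl ℂ (fun t => Complex.exp (F t)) (ball 0 ε) := by
    constructor
    · exact (hF.mono ball_subset_closedBall).cexp
    · rw [closure_ball (0 : ℂ) hε.ne']
      exact hF.continuousOn.cexp
  have h3 := Complex.norm_le_of_forall_mem_frontier_norm_le (isBounded_ball) h2
    (C := Real.exp ((F 0).re - c)) (by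
      intro z hz
      rw [frontier_ball (0 : ℂ) hε.ne', mem_sphere_zero_iff_norm] at hz
      exact h1 z hz) (subset_closure (mem_ball_self hε))
  rw [Complex.norm_exp] at h3
  have := Real.exp_le_exp.mp h3
  linarith

end Pool.Agent.W820.BM
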