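import Mathlib
import Pool.Agent.H713R3.ZA.Boett
import Pool.Agent.W820.BM.Stm0

/-!
Project BM (MP_28f8a1_an), helper820: a polynomial with connected filled Julia set of zero area is
a limit of hyperbolic polynomials of every type. Statements.

`PE n = Option (Fin n) → ℂ`: critical points `x (some i)` and constant term `x none`;
`fam a n x` is the polynomial of degree `n + 1` with leading coefficient `a`, these critical points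
and this constant term; `fx a n x` is its evaluation map; `KJ T` is the filled Julia set.
-/

set_option autoImplicit false

open Topology Filter Metric Set Polynomial MeasureTheory
open Pool.Agent.H713R3.ZA

namespace Pool.Agent.W820.BM

/-- AP1: if the parameter is large (with bounded centre) then some critical point escapes very
fast. -/
def S_AP1 : Prop :=
  ∀ (a : ℂ) (n : ℕ) (c : ℝ), a ≠ 0 → 1 ≤ n → 0 ≤ c → ∃ (B : ℝ) (M₀ : ℕ), 0 < B ∧ ∀ x : PE n,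
    ‖∑ i : Fin n, x (some i)‖ ≤ c → B ≤ ‖x‖ → ∃ i : Fin n, ∀ m : ℕ, M₀ ≤ m →
      Real.exp ((m : ℝ) ^ 2) + ‖x‖ < ‖(fx a n x)^[m] (x (some i))‖

/-- AP2: uniform escape for bounded parameters. -/
def S_AP2 : Prop :=
  ∀ (a : ℂ) (n : ℕ) (B : ℝ), a ≠ 0 → 1 ≤ n → ∃ R : ℝ, 1 ≤ R ∧ B + 1 ≤ R ∧
    (∀ x : PE n, ‖x‖ ≤ B → ∀ z : ℂ, R ≤ ‖z‖ → 2 * ‖z‖ ≤ ‖fx a n x z‖) ∧
    ∀ N : ℕ, ∃ M₀ : ℕ, N ≤ M₀ ∧ ∀ x : PE n, ‖x‖ ≤ B → ∀ z : ℂ, R ≤ ‖z‖ →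
      ∀ m : ℕ, M₀ ≤ m → ∀ j ≤ N, Real.exp ((m : ℝ) ^ 2) + B < ‖(fx a n x)^[m - j] z‖

/-- ATT: an almost periodic critical point is attracted by a sink, with all the points which come
close to it. -/
def S_ATT : Prop :=
  ∀ (a : ℂ) (n : ℕ) (B R : ℝ), 0 ≤ B → 0 ≤ R → ∃ C : ℝ, 2 ≤ C ∧ ∀ x : PE n, ‖x‖ ≤ B →
    ∀ y : ℂ, deriv (fx a n x) y = 0 → ∀ m : ℕ, 1 ≤ m →
    (∀ j ≤ m, ‖(fx a n x)^[j] y‖ ≤ R) → ‖(fx a n x)^[m] y - y‖ ≤ C⁻¹ ^ m →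
    ∃ z : ℂ, (fx a n x)^[m] z = z ∧ ‖z - y‖ ≤ 2 * C⁻¹ ^ m ∧
      ‖deriv ((fx a n x)^[m]) z‖ < 1 ∧
      ∀ u : ℂ, ‖(fx a n x)^[m] u - y‖ ≤ C⁻¹ ^ m →
        Tendsto (fun k : ℕ => (fx a n x)^[m * k] u) atTop (𝓝 z)

/-- FX: near a polynomial whose filled Julia set has zero area no fixed point is close to a critical
point. -/
def S_FX : Prop :=
  ∀ T : ℂ[X], 2 ≤ T.natDegree → volume (KJ T) = 0 → ∃ ε : ℝ, 0 < ε ∧ ∀ S : ℂ[X],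
    S.natDegree = T.natDegree → (∀ j : ℕ, ‖S.coeff j - T.coeff j‖ < ε) →
    ∀ z y : ℂ, S.eval z = z → (derivative S).eval y = 0 → ε ≤ ‖z - y‖

/-- Parameters for which the critical orbits are small up to the time `N`. -/
def OmN (a : ℂ) (n N : ℕ) (B R : ℝ) : Set (PE n) :=
  {x | x ∈ ball (0 : PE n) B ∧ ∀ i : Fin n, ∀ j : ℕ, 1 ≤ j → j ≤ N →
    ‖(fx a n x)^[j] (x (some i))‖ < R}

/-- PK: the peak function. -/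
def S_PK : Prop :=
  ∀ (a : ℂ) (n : ℕ) (B : ℝ), a ≠ 0 → 1 ≤ n → 0 < B → ∃ R₀ : ℝ, ∀ R : ℝ, R₀ ≤ R →
    ∃ C : ℝ, 0 < C ∧ ∀ xT ∈ ball (0 : PE n) B, (∀ i, xT (some i) ∈ KJ (fam a n xT)) →
      volume (KJ (fam a n xT)) < ⊤ ∧
      ∀ η : ℝ, 0 < η → ∃ (N : ℕ) (h : PE n → ℂ), IsOpen (OmN a n N B R) ∧ xT ∈ OmN a n N B R ∧
        DifferentiableOn ℂ h (OmN a n N B R) ∧ h xT = 0 ∧
        ∀ x ∈ OmN a n N B R, ∑ i : Fin n, x (some i) = ∑ i : Fin n, xT (some i) →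
          (h x).re ≤ (volume (KJ (fam a n xT))).toReal + η ∧
          ∀ j : ℕ, ‖(fam a n x).coeff j - (fam a n xT).coeff j‖ ≤
            C * Real.sqrt ((volume (KJ (fam a n xT))).toReal + η - (h x).re)

/-- The exterior coordinate at level `N`. `s` is the radius of the disc in the coordinate at
infinity, `R₄` the level. -/
structure EX (a : ℂ) (n N : ℕ) (B R C₁ R₁ R₄ s : ℝ) (ψ G : PE n × ℂ → ℂ) : Prop where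
  s0 : 0 < s
  lev : ∀ t : ℂ, t ≠ 0 → ‖t‖ < s → R₄ < ‖(fun w : ℂ => a * w ^ (n + 1))^[N] t⁻¹‖
  diff : DifferentiableOn ℂ G (OmN a n N B R ×ˢ ball (0 : ℂ) s)
  zero : ∀ x ∈ OmN a n N B R, G (x, 0) = 1
  inj : ∀ x ∈ OmN a n N B R, ∀ t ∈ ball (0 : ℂ) s, ∀ u ∈ ball (0 : ℂ) s, t ≠ 0 → u ≠ 0 →
    t⁻¹ * G (x, t) = u⁻¹ * G (x, u) → t = u
  near : ∀ x ∈ OmN a n N B R, ∀ t : ℂ, t ≠ 0 → ‖t‖ < s → R₁ < ‖t⁻¹‖ → t⁻¹ * G (x, t) = ψ (x, t⁻¹)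
  surj : ∀ x ∈ OmN a n N B R, ∀ (s' : ℝ) (z : ℂ), 0 < s' → s' ≤ s →
    ‖(fun w : ℂ => a * w ^ (n + 1))^[N] ((s' : ℂ)⁻¹)‖ + C₁ < ‖(fx a n x)^[N] z‖ →
    ∃ t : ℂ, t ≠ 0 ∧ ‖t‖ < s' ∧ t⁻¹ * G (x, t) = z

/-- EXT: existence of the exterior coordinate at level `N`. -/
def S_EXT : Prop :=
  ∀ (a : ℂ) (n N : ℕ) (B Rb C₁ R₁ R₃ R R₄ s : ℝ) (ψ φ : PE n × ℂ → ℂ), a ≠ 0 → 1 ≤ n →
    BO a n B Rb C₁ R₁ R₃ ψ φ → R₃ ≤ R → R + C₁ ≤ R₄ → 0 < s →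
    ‖(fun w : ℂ => a * w ^ (n + 1))^[N] ((s : ℂ)⁻¹)‖ = R₄ →
    ∃ G : PE n × ℂ → ℂ, EX a n N B R C₁ R₁ R₄ s ψ G

end Pool.Agent.W820.BM
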