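import Mathlib
import Pool.Agent.H713R3.ZA.Mot3
import Pool.Agent.H713R3.ZA.TROOT
import Pool.Agent.H713R3.ZA.TGAIN
import Pool.Agent.W820.BM.Stm

set_option autoImplicit false

open Topology Filter Metric Set Polynomial MeasureTheory
open Pool.Agent.H713R3.ZA

namespace Pool.Agent.W820.BM

theorem QQ_norm (a : ℂ) (n N : ℕ) : ∃ c : ℝ, 0 ≤ c ∧ ∀ w : ℂ,
    ‖(QQ a n)^[N] w‖ = c * ‖w‖ ^ ((n + 1) ^ N) := by
  induction N with
  | zero => exact ⟨1, zero_le_one, fun w => by simp⟩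
  | succ N ih =>
    obtain ⟨c, hc, h⟩ := ih
    refine ⟨‖a‖ * c ^ (n + 1), by positivity, fun w => ?_⟩
    rw [Function.iterate_succ_apply']
    have h2 : QQ a n ((QQ a n)^[N] w) = a * (QQ a n)^[N] w ^ (n + 1) := rfl
    rw [h2, norm_mul, norm_pow, h, mul_pow, ← pow_mul, ← mul_assoc, pow_succ (n + 1) N]

theorem QQ_exp (a : ℂ) (n N : ℕ) : Differentiable ℂ (fun ζ : ℂ => (QQ a n)^[N] (Complex.exp ζ)) := by
  have h : Differentiable ℂ ((QQ a n)^[N]) := by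
    apply Differentiable.iterate
    unfold QQ
    fun_prop
  exact h.comp Complex.differentiable_exp

section
variable {a : ℂ} {n N : ℕ} {B Rb C₁ R₁ R₃ R R₄ s : ℝ} {ψ φ : PE n × ℂ → ℂ}

theorem isOpen_OmN (a : ℂ) (n N : ℕ) (B R : ℝ) : IsOpen (OmN a n N B R) := by
  have h : OmN a n N B R = ball (0 : PE n) B ∩ ⋂ i : Fin n, ⋂ j ∈ Finset.Icc 1 N,
      {x : PE n | ‖(fx a n x)^[j] (x (some i))‖ < R} := by
    ext x
    simp only [OmN, mem_inter_iff, mem_iInter, Finset.mem_Icc, mem_setOf_eq]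
    constructor
    · rintro ⟨h1, h2⟩
      exact ⟨h1, fun i j hj => h2 i j hj.1 hj.2⟩
    · rintro ⟨h1, h2⟩
      exact ⟨h1, fun i j h3 h4 => h2 i j ⟨h3, h4⟩⟩
  rw [h]
  apply isOpen_ball.inter
  apply isOpen_iInter_of_finite
  intro i
  apply isOpen_biInter_finset
  intro j _
  apply isOpen_lt _ continuous_const
  have h1 : Continuous (fun x : PE n => ((x, x (some i)) : PE n × ℂ)) := by fun_prop
  exact (((contDiff_fx a n j).continuous).comp h1).norm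

theorem rootX (ha : a ≠ 0) (hb : BO a n B Rb C₁ R₁ R₃ ψ φ) (hR : R₃ ≤ R) (hR4 : R + C₁ ≤ R₄)
    {V : Type} [NormedAddCommGroup V] [NormedSpace ℂ V] [FiniteDimensional ℂ V] {U : Set V}
    (hUo : IsOpen U) (hUc : Convex ℝ U) {γ : V → PE n} {ω : V → ℂ}
    (hγ : DifferentiableOn ℂ γ U) (hω : DifferentiableOn ℂ ω U)
    (hγm : ∀ s ∈ U, γ s ∈ OmN a n N B R) (hωm : ∀ s ∈ U, R₄ < ‖ω s‖)
    {s₀ : V} (hs₀ : s₀ ∈ U) {u : ℂ} (hu : (fx a n (γ s₀))^[N] u = ψ (γ s₀, ω s₀)) :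
    ∃ Z : V → ℂ, DifferentiableOn ℂ Z U ∧ Z s₀ = u ∧
      (∀ s ∈ U, (fx a n (γ s))^[N] (Z s) = ψ (γ s, ω s)) ∧
      ∀ Z' : V → ℂ, ContinuousOn Z' U → (∃ s₁ ∈ U, Z' s₁ = Z s₁) →
        (∀ s ∈ U, (fx a n (γ s))^[N] (Z' s) = ψ (γ s, ω s)) → ∀ s ∈ U, Z' s = Z s := by
  have g1 := hb.hR; have g2 := hb.hC; have g3 := hb.hR₁; have g4 := hb.hR₃
  have hωR : ∀ s ∈ U, R₁ < ‖ω s‖ := fun s hs => by have := hωm s hs; linarith
  have hγB : ∀ s ∈ U, γ s ∈ ball (0 : PE n) B := fun s hs => (hγm s hs).1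
  have hψd : DifferentiableOn ℂ (fun s => ψ (γ s, ω s)) U := ψ_comp_diff hb hγ hω hγB hωR
  set G : V → ℂ → ℂ := fun s z => (fx a n (γ s))^[N] z - ψ (γ s, ω s) with hG
  have hGd : DifferentiableOn ℂ (fun p : V × ℂ => G p.1 p.2) (U ×ˢ univ) := by
    have h1 : DifferentiableOn ℂ (fun p : V × ℂ => ((γ p.1, p.2) : PE n × ℂ)) (U ×ˢ univ) := by
      apply DifferentiableOn.prodMk _ differentiable_snd.differentiableOn
      exact hγ.comp differentiable_fst.differentiableOn (fun p hp => hp.1)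
    have h2 : DifferentiableOn ℂ (fun p : V × ℂ => (fx a n (γ p.1))^[N] p.2) (U ×ˢ univ) := by
      have hH := (contDiff_fx a n N).differentiable (by norm_num)
      revert hH
      generalize hHe : (fun q : PE n × ℂ => (fx a n q.1)^[N] q.2) = H
      intro hH
      have h4 : (fun p : V × ℂ => (fx a n (γ p.1))^[N] p.2) =
          fun p => H ((fun p : V × ℂ => ((γ p.1, p.2) : PE n × ℂ)) p) := by
        funext p
        rw [← hHe]
      rw [h4]
      exact hH.comp_differentiableOn h1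
    have h3 : DifferentiableOn ℂ (fun p : V × ℂ => ψ (γ p.1, ω p.1)) (U ×ˢ univ) :=
      hψd.comp differentiable_fst.differentiableOn (fun p hp => hp.1)
    exact h2.sub h3
  have hGc : ContDiffOn ℂ 1 (fun p : V × ℂ => G p.1 p.2) (U ×ˢ univ) := by
    exact_mod_cast Pool.Agent.Helper540.contDiffOn_of_differentiableOn (hUo.prod isOpen_univ) hGd 1
  obtain ⟨Z, hZd, hZ0, hZr, hZu⟩ := root_holds V U G hUo hUc hGc (by
    intro K hKU hK M'
    obtain ⟨A, hA⟩ := hK.exists_bound_of_continuousOn (hψd.continuousOn.mono hKU)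
    refine ⟨max Rb (M' + A), fun s hs z hz => ?_⟩
    by_contra hcon
    push Not at hcon
    rw [max_lt_iff] at hcon
    have h1 := iter_large hb (hγB _ (hKU hs)) hcon.1.le N
    have h2 : ‖(fx a n (γ s))^[N] z‖ ≤ ‖G s z‖ + ‖ψ (γ s, ω s)‖ := by
      have : (fx a n (γ s))^[N] z = G s z + ψ (γ s, ω s) := by
        simp only [hG]; ring
      rw [this]; exact norm_add_le _ _
    have h3 := hA s hs
    linarith [hcon.2]) (by
    intro s hs z hz
    have h1 : deriv (G s) z = deriv ((fx a n (γ s))^[N]) z := by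
      simp only [hG]
      exact deriv_sub_const (f := (fx a n (γ s))^[N]) _
    rw [h1]
    intro h0
    obtain ⟨i, m, hm1, hm2, hm3⟩ := exists_crit_iter ha N h0
    have h4 : (fx a n (γ s))^[N] z = ψ (γ s, ω s) := sub_eq_zero.mp hz
    have h5 := (hγm s hs).2 i m hm1 hm2
    rw [← hm3, h4] at h5
    have h6 := hb.ψc _ (hγB s hs) (ω s) (hωR s hs)
    have h7 := norm_sub_norm_le (ω s) (ψ (γ s, ω s))
    rw [norm_sub_rev] at h7
    have := hωm s hs
    linarith) s₀ hs₀ u (by simp only [hG]; rw [hu, sub_self])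
  refine ⟨Z, hZd, hZ0, fun s hs => sub_eq_zero.mp (hZr s hs), ?_⟩
  intro Z' h1 h2 h3
  exact hZu Z' h1 h2 (fun s hs => by simp only [hG]; rw [h3 s hs, sub_self])

/-- the half plane -/
def HH (s : ℝ) : Set ℂ := {ζ | -Real.log s < ζ.re}

theorem HH_open (s : ℝ) : IsOpen (HH s) := isOpen_lt continuous_const Complex.continuous_re

theorem HH_convex (s : ℝ) : Convex ℝ (HH s) := convex_halfSpace_re_gt _

theorem exp_HH (hs : 0 < s) {ζ : ℂ} (hζ : ζ ∈ HH s) : s⁻¹ < ‖Complex.exp ζ‖ := by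
  rw [Complex.norm_exp, ← Real.exp_log (inv_pos.mpr hs), Real.log_inv]
  exact Real.exp_lt_exp.mpr hζ

theorem QQ_lt (hR4 : 0 < R₄) (hs : 0 < s)
    (hlev : ‖(QQ a n)^[N] ((s : ℂ)⁻¹)‖ = R₄) {w : ℂ} (hw : s⁻¹ < ‖w‖) :
    R₄ < ‖(QQ a n)^[N] w‖ := by
  obtain ⟨c, hc, h⟩ := QQ_norm a n N
  rw [← hlev, h, h]
  have h1 : ‖((s : ℂ))⁻¹‖ = s⁻¹ := by
    rw [norm_inv, Complex.norm_real, Real.norm_eq_abs, abs_of_pos hs]
  have hc0 : 0 < c := by
    rcases hc.lt_or_eq with h2 | h2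
    · exact h2
    · exfalso
      rw [h, ← h2, zero_mul] at hlev
      linarith
  rw [h1]
  apply mul_lt_mul_of_pos_left _ hc0
  exact pow_lt_pow_left₀ hw (by positivity) (by positivity)

theorem QQ_lt' {w w' : ℂ} (hw : w ≠ 0) (h0 : (QQ a n)^[N] w ≠ 0)
    (h1 : ‖(QQ a n)^[N] w‖ < ‖(QQ a n)^[N] w'‖) : ‖w‖ < ‖w'‖ := by
  obtain ⟨c, hc, h⟩ := QQ_norm a n N
  rw [h, h] at h1
  by_contra hcon
  push Not at hcon
  have := mul_le_mul_of_nonneg_left (pow_le_pow_left₀ (norm_nonneg _) hcon ((n + 1) ^ N)) hc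
  linarith

end

end Pool.Agent.W820.BM
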