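import Mathlib
import Pool.Agent.W820.BM.Ext1

set_option autoImplicit false

open Topology Filter Metric Set Polynomial MeasureTheory
open Pool.Agent.H713R3.ZA

namespace Pool.Agent.W820.BM

/-- parametrization of the polynomials with the same centre -/
noncomputable def emb {n : ℕ} (xT : PE n) (v : Fin n → ℂ) : PE n := fun o =>
  match o with
  | none => xT none + (∑ j, v j) / n
  | some i => xT (some i) + v i - (∑ j, v j) / n

theorem emb_none {n : ℕ} (xT : PE n) (v : Fin n → ℂ) : emb xT v none = xT none + (∑ j, v j) / n := rfl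

theorem emb_some {n : ℕ} (xT : PE n) (v : Fin n → ℂ) (i : Fin n) :
    emb xT v (some i) = xT (some i) + v i - (∑ j, v j) / n := rfl

theorem emb_zero {n : ℕ} (xT : PE n) : emb xT 0 = xT := by
  funext o
  cases o with
  | none => simp [emb_none]
  | some i => simp [emb_some]

theorem sum_emb {n : ℕ} (hn : 1 ≤ n) (xT : PE n) (v : Fin n → ℂ) :
    ∑ i : Fin n, emb xT v (some i) = ∑ i : Fin n, xT (some i) := by
  have h : (n : ℂ) ≠ 0 := by
    have : n ≠ 0 := by omega
    exact_mod_cast this
  simp only [emb_some]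
  rw [Finset.sum_sub_distrib, Finset.sum_add_distrib, Finset.sum_const, Finset.card_univ,
    Fintype.card_fin, nsmul_eq_mul, mul_div_cancel₀ _ h]
  ring

theorem emb_differentiable {n : ℕ} (xT : PE n) : Differentiable ℂ (emb xT) := by
  rw [differentiable_pi]
  intro o
  cases o with
  | none => simp only [emb_none]; fun_prop
  | some i => simp only [emb_some]; fun_prop

theorem norm_of_emb {n : ℕ} (xT : PE n) (v : Fin n → ℂ) {B : ℝ} (h : ‖emb xT v‖ ≤ B) :
    ‖v‖ ≤ 2 * (B + ‖xT‖) := by
  have hB : 0 ≤ B := (norm_nonneg _).trans h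
  have h1 : ∀ o : Option (Fin n), ‖emb xT v o‖ ≤ B := fun o => (norm_le_pi_norm _ o).trans h
  have h2 : ∀ o : Option (Fin n), ‖xT o‖ ≤ ‖xT‖ := fun o => norm_le_pi_norm _ o
  rw [pi_norm_le_iff_of_nonneg (by positivity)]
  intro i
  have e : v i = (emb xT v (some i) - xT (some i)) + (emb xT v none - xT none) := by
    rw [emb_some, emb_none]; ring
  rw [e]
  refine (norm_add_le _ _).trans ?_
  have h3 := norm_sub_le (emb xT v (some i)) (xT (some i))
  have h4 := norm_sub_le (emb xT v none) (xT none)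
  linarith [h1 (some i), h1 none, h2 (some i), h2 none]

/-- distinct primes in a bounded range -/
theorem exists_primes (k M : ℕ) (hM : 1 ≤ M) : ∃ p : Fin k → ℕ, Function.Injective p ∧
    ∀ j, (p j).Prime ∧ M ≤ p j ∧ p j ≤ 2 ^ k * M := by
  induction k with
  | zero => exact ⟨fun j => j.elim0, fun j => j.elim0, fun j => j.elim0⟩
  | succ k ih =>
    obtain ⟨p, hp1, hp2⟩ := ih
    have hpos : 1 ≤ 2 ^ k * M := Nat.mul_pos (by positivity) hM
    obtain ⟨q, hq1, hq2, hq3⟩ := Nat.exists_prime_lt_and_le_two_mul (2 ^ k * M) (by omega)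
    have hMle : M ≤ 2 ^ k * M := Nat.le_mul_of_pos_left M (by positivity)
    have hpow : 2 ^ (k + 1) * M = 2 * (2 ^ k * M) := by ring
    refine ⟨Fin.cons q p, ?_, ?_⟩
    · rw [Fin.cons_injective_iff]
      refine ⟨?_, hp1⟩
      rintro ⟨j, hj⟩
      have := (hp2 j).2.2
      omega
    · intro j
      refine Fin.cases ?_ ?_ j
      · rw [Fin.cons_zero]
        exact ⟨hq1, by omega, by omega⟩
      · intro i
        rw [Fin.cons_succ]
        obtain ⟨h1, h2, h3⟩ := hp2 i
        exact ⟨h1, h2, by omega⟩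

/-- the map whose smallness makes the critical points periodic or attracted -/
noncomputable def Ph (a : ℂ) (n : ℕ) (xT : PE n) (m : Fin n → ℕ) (r : Fin n → Option (Fin n))
    (v : Fin n → ℂ) : Fin n → ℂ := fun i =>
  (fx a n (emb xT v))^[m i] (emb xT v (some i)) - (r i).elim 0 (fun l => emb xT v (some l))

theorem iter_emb_differentiable (a : ℂ) (n : ℕ) (xT : PE n) (m : ℕ) (i : Fin n) :
    Differentiable ℂ (fun v : Fin n → ℂ => (fx a n (emb xT v))^[m] (emb xT v (some i))) := by
  have hH := (contDiff_fx a n m).differentiable (by norm_num)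
  revert hH
  generalize hHe : (fun q : PE n × ℂ => (fx a n q.1)^[m] q.2) = H
  intro hH
  have h1 : (fun v : Fin n → ℂ => (fx a n (emb xT v))^[m] (emb xT v (some i))) =
      fun v => H (emb xT v, emb xT v (some i)) := by
    funext v; rw [← hHe]
  rw [h1]
  have h2 : Differentiable ℂ (fun v : Fin n → ℂ => emb xT v (some i)) :=
    (differentiable_pi.mp (emb_differentiable xT)) (some i)
  exact hH.comp ((emb_differentiable xT).prodMk h2)

theorem Ph_differentiable (a : ℂ) (n : ℕ) (xT : PE n) (m : Fin n → ℕ) (r : Fin n → Option (Fin n)) :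
    Differentiable ℂ (Ph a n xT m r) := by
  rw [differentiable_pi]
  intro i
  unfold Ph
  apply (iter_emb_differentiable a n xT (m i) i).sub
  cases r i with
  | none => simp
  | some l => exact (differentiable_pi.mp (emb_differentiable xT)) (some l)

theorem nsq_coord {n : ℕ} {w : Fin n → ℂ} {R : ℝ} (hR : 0 ≤ R) (h : nsq w ≤ R ^ 2) (i : Fin n) :
    ‖w i‖ ≤ R := by
  have h1 : ‖w i‖ ^ 2 ≤ nsq w := by
    unfold nsq
    exact Finset.single_le_sum (f := fun i => ‖w i‖ ^ 2) (fun j _ => by positivity)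
      (Finset.mem_univ i)
  exact le_of_sq_le_sq (h1.trans h) hR

theorem nsq_le {n : ℕ} {w : Fin n → ℂ} {R : ℝ} (hR : 0 ≤ R) (h : ∀ i, ‖w i‖ ≤ R) :
    nsq w ≤ ((n : ℝ) * R) ^ 2 := by
  have h1 : nsq w ≤ ∑ _i : Fin n, R ^ 2 := by
    unfold nsq
    apply Finset.sum_le_sum
    intro i _
    exact pow_le_pow_left₀ (norm_nonneg _) (h i) 2
  rw [Finset.sum_const, Finset.card_univ, Fintype.card_fin, nsmul_eq_mul] at h1
  rcases Nat.eq_zero_or_pos n with h0 | h0
  · subst h0; simpa using h1
  · have h2 : (1 : ℝ) ≤ n := by exact_mod_cast h0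
    calc nsq w ≤ n * R ^ 2 := h1
      _ ≤ (n : ℝ) ^ 2 * R ^ 2 := by
          apply mul_le_mul_of_nonneg_right _ (by positivity)
          nlinarith
      _ = _ := by ring

end Pool.Agent.W820.BM
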