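import Mathlib
import Pool.Agent.W820.BM.Asm1

set_option autoImplicit false

open Topology Filter Metric Set Polynomial MeasureTheory
open Pool.Agent.H713R3.ZA

namespace Pool.Agent.W820.BM

/-- The conclusion: the critical points of the polynomial with parameter `x` are distributed over
the basins according to the type `τ`. -/
structure Concl (a : ℂ) (n k : ℕ) (τ : Fin n → Option (Fin k)) (N₀ : ℕ) (x : PE n)
    (p : Fin k → ℕ) (z : Fin k → ℂ) (r : Fin k → Fin n) : Prop where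
  inj : Function.Injective p
  prime : ∀ j, (p j).Prime ∧ N₀ ≤ p j
  rep : ∀ j, τ (r j) = some j
  fix : ∀ j, (fx a n x)^[p j] (z j) = z j
  mul : ∀ j, ‖deriv ((fx a n x)^[p j]) (z j)‖ < 1
  near : ∀ j, ‖z j - x (some (r j))‖ * ((N₀ : ℝ) + 1) < 1
  esc : ∀ i, τ i = none → Tendsto (fun l : ℕ => ‖(fx a n x)^[l] (x (some i))‖) atTop atTop
  att : ∀ i j, τ i = some j →
    Tendsto (fun l : ℕ => (fx a n x)^[p j * l] (x (some i))) atTop (𝓝 (z j))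

theorem grow {a : ℂ} {n : ℕ} {x : PE n} {R : ℝ} (hR : 1 ≤ R)
    (h : ∀ z : ℂ, R ≤ ‖z‖ → 2 * ‖z‖ ≤ ‖fx a n x z‖) {z : ℂ} (hz : R ≤ ‖z‖) (k : ℕ) :
    ‖z‖ ≤ ‖(fx a n x)^[k] z‖ := by
  induction k with
  | zero => exact le_rfl
  | succ k ih =>
    rw [Function.iterate_succ_apply']
    have := h _ (hz.trans ih)
    have := norm_nonneg ((fx a n x)^[k] z)
    linarith

theorem escapes {a : ℂ} {n : ℕ} {x : PE n} {R : ℝ} (hR : 1 ≤ R)
    (h : ∀ z : ℂ, R ≤ ‖z‖ → 2 * ‖z‖ ≤ ‖fx a n x z‖) {z : ℂ} {m : ℕ}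
    (hz : R ≤ ‖(fx a n x)^[m] z‖) : Tendsto (fun l : ℕ => ‖(fx a n x)^[l] z‖) atTop atTop := by
  rw [← tendsto_add_atTop_iff_nat m]
  have h2 := Pool.Agent.H792R2.Dyn.attr_of_large (by linarith : (0:ℝ) < R) h hz
  simp only [← Function.iterate_add_apply] at h2
  exact h2

/-- The domain is contained in the good region. -/
theorem dom_sub {a : ℂ} {n : ℕ} {B c₀ R R₂ : ℝ} {M₁ M₀ N : ℕ} (hR₂ : R₂ ≤ R)
    (hAP1 : ∀ x : PE n, ‖∑ i : Fin n, x (some i)‖ ≤ c₀ → B ≤ ‖x‖ → ∃ i : Fin n, ∀ m : ℕ, M₁ ≤ m →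
      Real.exp ((m : ℝ) ^ 2) + ‖x‖ < ‖(fx a n x)^[m] (x (some i))‖)
    (hNM : N ≤ M₀)
    (hAP2 : ∀ x : PE n, ‖x‖ ≤ B → ∀ z : ℂ, R₂ ≤ ‖z‖ →
      ∀ m : ℕ, M₀ ≤ m → ∀ j ≤ N, Real.exp ((m : ℝ) ^ 2) + B < ‖(fx a n x)^[m - j] z‖)
    (hn : 1 ≤ n) {xT : PE n} (hc : ‖∑ i : Fin n, xT (some i)‖ ≤ c₀) {M : ℕ} (hM1 : M₁ ≤ M)
    (hM0 : M₀ ≤ M) {m : Fin n → ℕ} (hm : ∀ i, M ≤ m i) {r : Fin n → Option (Fin n)}
    {v : Fin n → ℂ} (hv : ∀ i, ‖Ph a n xT m r v i‖ ≤ Real.exp ((M : ℝ) ^ 2)) :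
    emb xT v ∈ OmN a n N B R := by
  set x := emb xT v with hx
  have hsum : ‖∑ i : Fin n, x (some i)‖ ≤ c₀ := by rw [hx, sum_emb hn]; exact hc
  have hexp : ∀ i, Real.exp ((M : ℝ) ^ 2) ≤ Real.exp ((m i : ℝ) ^ 2) := by
    intro i
    apply Real.exp_le_exp.mpr
    have h1 : (M : ℝ) ≤ m i := by exact_mod_cast hm i
    exact pow_le_pow_left₀ (Nat.cast_nonneg M) h1 2
  have hit : ∀ i, ‖(fx a n x)^[m i] (x (some i))‖ ≤ Real.exp ((m i : ℝ) ^ 2) + ‖x‖ := by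
    intro i
    have h1 : (fx a n x)^[m i] (x (some i)) = Ph a n xT m r v i +
        (r i).elim 0 (fun l => x (some l)) := by
      unfold Ph; rw [← hx]; ring
    rw [h1]
    refine (norm_add_le _ _).trans (add_le_add ((hv i).trans (hexp i)) ?_)
    cases r i with
    | none => simp
    | some l => exact norm_le_pi_norm x (some l)
  have hxB : ‖x‖ < B := by
    by_contra hcon
    push Not at hcon
    obtain ⟨i, hi⟩ := hAP1 x hsum hcon
    have := hi (m i) (hM1.trans (hm i))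
    linarith [hit i]
  refine ⟨mem_ball_zero_iff.mpr hxB, ?_⟩
  intro i j _ hj
  by_contra hcon
  push Not at hcon
  have h1 := hAP2 x hxB.le _ (hR₂.trans hcon) (m i) (hM0.trans (hm i)) j hj
  rw [← Function.iterate_add_apply, Nat.sub_add_cancel (by
    exact hj.trans (hNM.trans (hM0.trans (hm i))))] at h1
  linarith [hit i]

theorem dom_compact {a : ℂ} {n : ℕ} {B R : ℝ} {N : ℕ} {xT : PE n} {m : Fin n → ℕ}
    {r : Fin n → Option (Fin n)} {D : Set (Fin n → ℂ)} (hD : IsClosed D)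
    (hsub : ∀ v ∈ D, emb xT v ∈ OmN a n N B R) : IsCompact D := by
  apply Metric.isCompact_of_isClosed_isBounded hD
  rw [isBounded_iff_forall_norm_le]
  refine ⟨2 * (B + ‖xT‖), fun v hv => ?_⟩
  exact norm_of_emb xT v (mem_ball_zero_iff.mp (hsub v hv).1).le

theorem exists_theta {C V ε : ℝ} (hC : 0 < C) (h : C * Real.sqrt V < ε) :
    ∃ θ : ℝ, 0 < θ ∧ C * Real.sqrt (V + 2 * θ) < ε := by
  have h1 : Continuous (fun θ : ℝ => C * Real.sqrt (V + 2 * θ)) := by fun_prop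
  have h2 : ∀ᶠ θ : ℝ in 𝓝 0, C * Real.sqrt (V + 2 * θ) < ε := by
    have h3 := h1.tendsto 0
    simp only [mul_zero, add_zero] at h3
    exact h3.eventually (gt_mem_nhds h)
  obtain ⟨δ, hδ, hb⟩ := Metric.eventually_nhds_iff_ball.mp h2
  refine ⟨δ / 2, by positivity, hb _ ?_⟩
  rw [mem_ball, dist_zero_right, Real.norm_eq_abs, abs_of_pos (by positivity)]
  linarith

end Pool.Agent.W820.BM
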