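import Mathlib
import Pool.Agent.W820.BM.Asm2

set_option autoImplicit false

open Topology Filter Metric Set Polynomial MeasureTheory
open Pool.Agent.H713R3.ZA

namespace Pool.Agent.W820.BM

/-- the choice of the number of iterates -/
theorem exists_M (K N₀ M₁ : ℕ) {R₀ CA V θ X : ℝ} (hR₀ : 1 ≤ R₀) (hCA : 2 ≤ CA) (hV : 0 ≤ V)
    (hθ : 0 < θ) : ∃ M : ℕ, 1 ≤ M ∧ M₁ ≤ M ∧ N₀ ≤ M ∧ X ≤ Real.exp ((M : ℝ) ^ 2) ∧
      2 * CA⁻¹ ^ M * ((N₀ : ℝ) + 1) < 1 ∧ R₀ < Real.exp ((M : ℝ) ^ 2) ∧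
      (V + θ + 1) * (Real.log R₀ + Real.log 2 + K * M * Real.log CA) ≤
        θ / 2 * ((M : ℝ) ^ 2 - Real.log R₀) := by
  have hsq : Tendsto (fun M : ℕ => (M : ℝ) ^ 2) atTop atTop :=
    (tendsto_pow_atTop (two_ne_zero)).comp tendsto_natCast_atTop_atTop
  have hexp : Tendsto (fun M : ℕ => Real.exp ((M : ℝ) ^ 2)) atTop atTop :=
    Real.tendsto_exp_atTop.comp hsq
  have h1 : ∀ᶠ M : ℕ in atTop, X ≤ Real.exp ((M : ℝ) ^ 2) := hexp.eventually_ge_atTop X
  have h2 : ∀ᶠ M : ℕ in atTop, R₀ < Real.exp ((M : ℝ) ^ 2) := hexp.eventually_gt_atTop R₀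
  have h3 : ∀ᶠ M : ℕ in atTop, 2 * CA⁻¹ ^ M * ((N₀ : ℝ) + 1) < 1 := by
    have h4 : Tendsto (fun M : ℕ => 2 * CA⁻¹ ^ M * ((N₀ : ℝ) + 1)) atTop (𝓝 (2 * 0 * ((N₀ : ℝ) + 1))) := by
      apply Tendsto.mul_const
      apply Tendsto.const_mul
      apply tendsto_pow_atTop_nhds_zero_of_lt_one (by positivity)
      exact inv_lt_one_of_one_lt₀ (by linarith)
    rw [mul_zero, zero_mul] at h4
    exact h4.eventually (gt_mem_nhds one_pos)
  set A : ℝ := (V + θ + 1) * (Real.log R₀ + Real.log 2) + θ / 2 * Real.log R₀ with hA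
  set D : ℝ := (V + θ + 1) * (K * Real.log CA) with hD
  have hAlog : 0 ≤ Real.log CA := Real.log_nonneg (by linarith)
  have hlog0 : 0 ≤ Real.log R₀ := Real.log_nonneg hR₀
  have hD0 : 0 ≤ D := by positivity
  have hA0 : 0 ≤ A := by
    have : 0 ≤ Real.log 2 := Real.log_nonneg (by norm_num)
    positivity
  have h5 : ∀ᶠ M : ℕ in atTop, (D + A) / (θ / 2) ≤ (M : ℝ) :=
    tendsto_natCast_atTop_atTop.eventually_ge_atTop _
  obtain ⟨M, e1, e2, e3, e5, e6, e7, e8⟩ := (h1.and (h2.and (h3.and (h5.and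
    ((eventually_ge_atTop 1).and ((eventually_ge_atTop M₁).and
      (eventually_ge_atTop N₀))))))).exists
  refine ⟨M, e6, e7, e8, e1, e3, e2, ?_⟩
  have hM1 : (1 : ℝ) ≤ M := by exact_mod_cast e6
  have h6 : D + A ≤ θ / 2 * M := by
    rw [div_le_iff₀ (by positivity)] at e5
    linarith
  have h7 : D * M + A ≤ θ / 2 * (M : ℝ) ^ 2 := by
    have h8 : (D + A) * M ≤ θ / 2 * M * M := mul_le_mul_of_nonneg_right h6 (by linarith)
    nlinarith
  have h9 : (V + θ + 1) * (Real.log R₀ + Real.log 2 + K * M * Real.log CA) =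
      D * M + (A - θ / 2 * Real.log R₀) := by rw [hA, hD]; ring
  rw [h9]
  nlinarith

/-- The engine: a holomorphic function which is bounded above near the connectedness locus almost
attains its value at `xT` at hyperbolic parameters of any type. -/
theorem engine (hTC : S_TC) (hSH : S_SH) (hAP1 : S_AP1) (hAP2 : S_AP2) (hATT : S_ATT)
    {a : ℂ} (ha : a ≠ 0) {n : ℕ} (hn : 1 ≤ n) {c₀ : ℝ} (hc₀ : 0 ≤ c₀) :
    ∃ B : ℝ, 0 < B ∧ ∃ R₂ : ℝ, ∀ R : ℝ, R₂ ≤ R → ∀ xT : PE n, ‖∑ i : Fin n, xT (some i)‖ ≤ c₀ →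
      (∀ i, xT (some i) ∈ KJ (fam a n xT)) → ‖xT‖ < B ∧
      (∀ i l, ‖(fx a n xT)^[l] (xT (some i))‖ < R) ∧
      ∀ (N : ℕ) (h : PE n → ℂ) (V θ : ℝ), DifferentiableOn ℂ h (OmN a n N B R) → h xT = 0 →
      0 ≤ V → 0 < θ → (∀ x ∈ OmN a n N B R,
        ∑ i : Fin n, x (some i) = ∑ i : Fin n, xT (some i) → (h x).re ≤ V) →
      ∀ (k : ℕ) (τ : Fin n → Option (Fin k)), (∀ j, ∃ i, τ i = some j) → ∀ N₀ : ℕ,
      ∃ (x : PE n) (p : Fin k → ℕ) (z : Fin k → ℂ) (r : Fin k → Fin n),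
        x ∈ OmN a n N B R ∧ ∑ i : Fin n, x (some i) = ∑ i : Fin n, xT (some i) ∧
        -θ ≤ (h x).re ∧ Concl a n k τ N₀ x p z r := by
  classical
  obtain ⟨B, M₁, hB, hap1⟩ := hAP1 a n c₀ ha hn hc₀
  obtain ⟨R₂, hR₂1, hR₂B, hgrow, hap2⟩ := hAP2 a n B ha hn
  refine ⟨B, hB, R₂, fun R hRR₂ => ?_⟩
  obtain ⟨CA, hCA, hatt⟩ := hATT a n B R hB.le (by linarith)
  intro xT hsum hcrit
  have hxB : ‖xT‖ < B := by
    by_contra hcon
    push Not at hcon
    obtain ⟨i, hi⟩ := hap1 xT hsum hcon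
    apply hcrit i
    have hsq : Tendsto (fun M : ℕ => Real.exp ((M : ℝ) ^ 2)) atTop atTop :=
      Real.tendsto_exp_atTop.comp
        ((tendsto_pow_atTop (two_ne_zero)).comp tendsto_natCast_atTop_atTop)
    apply tendsto_atTop_mono' _ _ hsq
    filter_upwards [eventually_ge_atTop M₁] with m hm
    have := hi m hm
    have h2 : (fun w : ℂ => (fam a n xT).eval w) = fx a n xT := rfl
    rw [h2]
    linarith [norm_nonneg xT]
  have horb' : ∀ i l, ‖(fx a n xT)^[l] (xT (some i))‖ < R := by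
    intro i l
    by_contra hcon
    push Not at hcon
    exact hcrit i (escapes hR₂1 (hgrow xT hxB.le) (hRR₂.trans hcon))
  refine ⟨hxB, horb', ?_⟩
  intro N h V θ hdh h0 hV0 hθ hh k τ hτ N₀
  obtain ⟨M₀, hNM₀, hap2⟩ := hap2 N
  choose r hr using hτ
  obtain ⟨R', hR'⟩ : ∃ R' : ℝ, R' = n * (R + B) + 1 := ⟨_, rfl⟩
  have hR1 : 1 ≤ R := hR₂1.trans hRR₂
  have hn0 : (1 : ℝ) ≤ n := by exact_mod_cast hn
  have hR'1 : 1 ≤ R' := by
    rw [hR']
    have : 0 ≤ (n : ℝ) * (R + B) := by positivity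
    linarith
  obtain ⟨M, hM1, hMM, hMN, hMX, hMnear, hMR, hMloss⟩ :=
    exists_M (2 ^ k) N₀ (max M₁ M₀) (X := n * (4 * R)) hR'1 hCA hV0 hθ
  have hMM₁ : M₁ ≤ M := (le_max_left _ _).trans hMM
  have hMM₀ : M₀ ≤ M := (le_max_right _ _).trans hMM
  obtain ⟨p, hpinj, hp⟩ := exists_primes k M hM1
  set m : Fin n → ℕ := fun i => (τ i).elim M p with hm
  set rr : Fin n → Option (Fin n) := fun i => (τ i).map r with hrr
  have hmM : ∀ i, M ≤ m i := by
    intro i
    simp only [hm]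
    cases τ i with
    | none => exact le_rfl
    | some j => exact (hp j).2.1
  have hΦd : Differentiable ℂ (Ph a n xT m rr) := Ph_differentiable a n xT m rr
  have hemb : Differentiable ℂ (emb xT) := emb_differentiable xT
  have hΩ : IsOpen (emb xT ⁻¹' OmN a n N B R) := (isOpen_OmN a n N B R).preimage hemb.continuous
  have hh' : DifferentiableOn ℂ (fun v => h (emb xT v)) (emb xT ⁻¹' OmN a n N B R) :=
    hdh.comp hemb.differentiableOn (fun v hv => hv)
  -- the domain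
  have hexp0 : 0 < Real.exp ((M : ℝ) ^ 2) := Real.exp_pos _
  have hsub : ∀ v, nsq (Ph a n xT m rr v) ≤ Real.exp ((M : ℝ) ^ 2) ^ 2 →
      emb xT v ∈ OmN a n N B R := by
    intro v hv
    apply dom_sub hRR₂ hap1 hNM₀ hap2 hn hsum hMM₁ hMM₀ hmM (r := rr)
    intro i
    exact nsq_coord hexp0.le hv i
  have hnsqc : Continuous (fun v => nsq (Ph a n xT m rr v)) := by
    unfold nsq
    have hc : ∀ i, Continuous (fun v => Ph a n xT m rr v i) := fun i =>
      (continuous_apply i).comp hΦd.continuous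
    exact continuous_finset_sum _ (fun i _ => (hc i).norm.pow 2)
  have hDclosed : IsClosed {v | nsq (Ph a n xT m rr v) ≤ Real.exp ((M : ℝ) ^ 2) ^ 2} :=
    isClosed_le hnsqc continuous_const
  have hDcomp : IsCompact {v | nsq (Ph a n xT m rr v) ≤ Real.exp ((M : ℝ) ^ 2) ^ 2} :=
    dom_compact (m := m) (r := rr) hDclosed (fun v hv => hsub v hv)
  -- the value at the centre
  have horb : ∀ i l, ‖(fx a n xT)^[l] (xT (some i))‖ ≤ R := fun i l => (horb' i l).le
  have hcen : nsq (Ph a n xT m rr 0) ≤ R' ^ 2 := by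
    have h1 : nsq (Ph a n xT m rr 0) ≤ ((n : ℝ) * (R + B)) ^ 2 := by
      apply nsq_le (by positivity)
      intro i
      unfold Ph
      rw [emb_zero]
      refine (norm_sub_le _ _).trans (add_le_add (horb i _) ?_)
      cases rr i with
      | none => simpa using hB.le
      | some l => exact (norm_le_pi_norm xT (some l)).trans hxB.le
    refine h1.trans (pow_le_pow_left₀ (by positivity) ?_ 2)
    rw [hR']
    linarith
  -- three circles
  obtain ⟨ρ, hρ⟩ : ∃ ρ : ℝ, ρ = CA⁻¹ ^ (2 ^ k * M) / 2 := ⟨_, rfl⟩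
  have hCA0 : 0 < CA := by linarith
  have hCAi0 : 0 < CA⁻¹ := inv_pos.mpr hCA0
  have hCAi1 : CA⁻¹ ≤ 1 := inv_le_one_of_one_le₀ (by linarith)
  have hρ0 : 0 < ρ := by rw [hρ]; positivity
  have hρ1 : ρ ≤ 1 := by
    rw [hρ]
    have := pow_le_one₀ hCAi0.le hCAi1 (n := 2 ^ k * M)
    linarith
  have hM2 : Real.log R' < (M : ℝ) ^ 2 := by
    rw [Real.log_lt_iff_lt_exp (by linarith)]
    exact hMR
  obtain ⟨κ, hκ⟩ : ∃ κ : ℝ, κ = (V + θ + 1) / ((M : ℝ) ^ 2 - Real.log R') := ⟨_, rfl⟩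
  have hlogq : Real.log (Real.exp ((M : ℝ) ^ 2) / R') = (M : ℝ) ^ 2 - Real.log R' := by
    rw [Real.log_div hexp0.ne' (by linarith), Real.log_exp]
  have hden : 0 < (M : ℝ) ^ 2 - Real.log R' := by linarith
  obtain ⟨v₁, hv₁, hv₁h⟩ := hTC n (emb xT ⁻¹' OmN a n N B R) (Ph a n xT m rr)
    (fun v => h (emb xT v)) (Real.exp ((M : ℝ) ^ 2)) R' ρ V κ hΩ hΦd hh' hρ0
    (hρ1.trans hR'1) hMR hV0 (by
      rw [hlogq, hκ, div_mul_cancel₀ _ hden.ne']
      linarith) hDcomp (fun v hv => hsub v hv)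
    (fun v hv => hh _ (hsub v hv) (sum_emb hn xT v)) 0 hcen (by
      show (h (emb xT 0)).re = 0
      rw [emb_zero, h0]
      rfl)
  have hloss : κ * Real.log (R' / ρ) ≤ θ / 2 := by
    have h1 : Real.log (R' / ρ) = Real.log R' + Real.log 2 +
        ((2 ^ k : ℕ) : ℝ) * M * Real.log CA := by
      rw [Real.log_div (by linarith) hρ0.ne', hρ, Real.log_div (by positivity) (by norm_num),
        Real.log_pow, Real.log_inv]
      push_cast
      ring
    rw [h1, hκ, div_mul_eq_mul_div, div_le_iff₀ hden]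
    exact hMloss
  have hv₁h' : -(θ / 2) ≤ (h (emb xT v₁)).re := by linarith
  have hv₁i : ∀ i, ‖Ph a n xT m rr v₁ i‖ ≤ ρ := fun i => nsq_coord hρ0.le hv₁ i
  -- distinguished boundary
  obtain ⟨σ, hσ⟩ : ∃ σ : ℝ, σ = min (1 / 2) (θ / 2) := ⟨_, rfl⟩
  have hσ0 : 0 < σ := by rw [hσ]; exact lt_min (by norm_num) (by positivity)
  have hσ1 : σ ≤ 1 / 2 := by rw [hσ]; exact min_le_left _ _
  have hσθ : σ ≤ θ / 2 := by rw [hσ]; exact min_le_right _ _
  set ri : Fin n → ℝ := fun i => (τ i).elim (2 * R) (fun _ => ρ) with hri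
  have hri0 : ∀ i, 0 < ri i := by
    intro i
    simp only [hri]
    cases τ i with
    | none => simp only [Option.elim]; linarith
    | some j => exact hρ0
  have hri1 : ∀ i, ρ ≤ ri i := by
    intro i
    simp only [hri]
    cases τ i with
    | none => simp only [Option.elim]; linarith
    | some j => exact le_rfl
  have hri2 : ∀ i, ri i ≤ 2 * R := by
    intro i
    simp only [hri]
    cases τ i with
    | none => exact le_rfl
    | some j => simp only [Option.elim]; linarith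
  have hsub2 : {v | ∀ i, ‖Ph a n xT m rr v i‖ ≤ (1 + σ) * ri i} ⊆
      {v | nsq (Ph a n xT m rr v) ≤ Real.exp ((M : ℝ) ^ 2) ^ 2} := by
    intro v hv
    have h1 : nsq (Ph a n xT m rr v) ≤ ((n : ℝ) * (4 * R)) ^ 2 := by
      apply nsq_le (by positivity)
      intro i
      refine (hv i).trans ?_
      have h2 := hri2 i
      have h3 := hri0 i
      nlinarith
    exact h1.trans (pow_le_pow_left₀ (by positivity) hMX 2)
  have hclosed2 : IsClosed {v | ∀ i, ‖Ph a n xT m rr v i‖ ≤ (1 + σ) * ri i} := by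
    rw [setOf_forall]
    apply isClosed_iInter
    intro i
    exact isClosed_le ((continuous_apply i).comp hΦd.continuous).norm continuous_const
  obtain ⟨v₂, hv₂, hv₂h⟩ := hSH n (emb xT ⁻¹' OmN a n N B R) (Ph a n xT m rr)
    (fun v => h (emb xT v)) ri σ hΩ hΦd hh' hri0 hσ0 (by linarith)
    (hDcomp.of_isClosed_subset hclosed2 hsub2) (fun v hv => hsub v (hsub2 hv)) v₁
    (fun i => (hv₁i i).trans (hri1 i))
  have hv₂h' : -θ ≤ (h (emb xT v₂)).re := by
    have : (h (emb xT v₁)).re - σ ≤ (h (emb xT v₂)).re := hv₂h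
    linarith
  have hv₂D : nsq (Ph a n xT m rr v₂) ≤ Real.exp ((M : ℝ) ^ 2) ^ 2 := hsub2 (fun i => (hv₂ i).2)
  set x : PE n := emb xT v₂ with hx
  have hxO : x ∈ OmN a n N B R := hsub v₂ hv₂D
  have hxB' : ‖x‖ < B := mem_ball_zero_iff.mp hxO.1
  have hxs : ∑ i : Fin n, x (some i) = ∑ i : Fin n, xT (some i) := sum_emb hn xT v₂
  have hgx := hgrow x hxB'.le
  -- closeness of the critical orbits
  have hclose : ∀ i j, τ i = some j →
      ‖(fx a n x)^[p j] (x (some i)) - x (some (r j))‖ ≤ CA⁻¹ ^ (p j) := by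
    intro i j hij
    have h1 := (hv₂ i).2
    have h2 : Ph a n xT m rr v₂ i = (fx a n x)^[p j] (x (some i)) - x (some (r j)) := by
      simp only [Ph, hm, hrr, hij, Option.elim, Option.map_some, ← hx]
    have h3 : ri i = ρ := by simp only [hri, hij, Option.elim]
    rw [h2, h3] at h1
    have h4 : (1 + σ) * ρ ≤ CA⁻¹ ^ (2 ^ k * M) := by
      have : CA⁻¹ ^ (2 ^ k * M) = 2 * ρ := by rw [hρ]; ring
      rw [this]
      nlinarith
    refine h1.trans (h4.trans ?_)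
    exact pow_le_pow_of_le_one hCAi0.le hCAi1 (hp j).2.2
  have horb2 : ∀ j, ∀ l ≤ p j, ‖(fx a n x)^[l] (x (some (r j)))‖ ≤ R := by
    intro j l hl
    by_contra hcon
    push Not at hcon
    have h1 := grow hR₂1 hgx (hRR₂.trans hcon.le) (p j - l)
    rw [← Function.iterate_add_apply, Nat.sub_add_cancel hl] at h1
    have h2 := hclose (r j) j (hr j)
    have h3 : ‖(fx a n x)^[p j] (x (some (r j)))‖ ≤
        ‖(fx a n x)^[p j] (x (some (r j))) - x (some (r j))‖ + ‖x (some (r j))‖ := by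
      have := norm_add_le ((fx a n x)^[p j] (x (some (r j))) - x (some (r j))) (x (some (r j)))
      simpa using this
    have h4 : ‖x (some (r j))‖ ≤ ‖x‖ := norm_le_pi_norm x (some (r j))
    have h5 : CA⁻¹ ^ (p j) ≤ 1 := pow_le_one₀ hCAi0.le hCAi1
    linarith
  have hsink : ∀ j, ∃ z : ℂ, (fx a n x)^[p j] z = z ∧
      ‖z - x (some (r j))‖ ≤ 2 * CA⁻¹ ^ (p j) ∧ ‖deriv ((fx a n x)^[p j]) z‖ < 1 ∧
      ∀ u : ℂ, ‖(fx a n x)^[p j] u - x (some (r j))‖ ≤ CA⁻¹ ^ (p j) →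
        Tendsto (fun l : ℕ => (fx a n x)^[p j * l] u) atTop (𝓝 z) := by
    intro j
    apply hatt x hxB'.le _ _ (p j) (hp j).1.one_lt.le (horb2 j) (hclose (r j) j (hr j))
    rw [deriv_fx, Finset.prod_eq_zero (Finset.mem_univ (r j)) (sub_self _), mul_zero]
  choose z hz1 hz2 hz3 hz4 using hsink
  refine ⟨x, p, z, r, hxO, hxs, hv₂h', ?_⟩
  · constructor
    · exact hpinj
    · exact fun j => ⟨(hp j).1, hMN.trans (hp j).2.1⟩
    · exact hr
    · exact hz1
    · exact hz3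
    · intro j
      refine lt_of_le_of_lt ?_ hMnear
      apply mul_le_mul_of_nonneg_right _ (by positivity)
      refine (hz2 j).trans ?_
      apply mul_le_mul_of_nonneg_left _ (by norm_num)
      exact pow_le_pow_of_le_one hCAi0.le hCAi1 (hp j).2.1
    · intro i hi
      have h1 := (hv₂ i).1
      have h2 : Ph a n xT m rr v₂ i = (fx a n x)^[M] (x (some i)) := by
        simp only [Ph, hm, hrr, hi, Option.elim, Option.map_none, ← hx, sub_zero]
      have h3 : ri i = 2 * R := by simp only [hri, hi, Option.elim]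
      rw [h2, h3] at h1
      apply escapes hR₂1 hgx (m := M)
      nlinarith
    · intro i j hij
      exact hz4 j _ (hclose i j hij)

end Pool.Agent.W820.BM
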