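import Mathlib
import Pool.Agent.W820.BM.Asm3
import Pool.Agent.W806.BM.AP1

set_option autoImplicit false

open Topology Filter Metric Set Polynomial MeasureTheory
open Pool.Agent.H713R3.ZA

namespace Pool.Agent.W820.BM

theorem exists_perm_of_fibers {n : ℕ} {f g : Fin n → ℂ}
    (h : ∀ c : ℂ, Fintype.card {i // f i = c} = Fintype.card {i // g i = c}) :
    ∃ σ : Equiv.Perm (Fin n), ∀ i, f i = g (σ i) := by
  classical
  have e : ∀ c : ℂ, {i // f i = c} ≃ {i // g i = c} := fun c => Fintype.equivOfCardEq (h c)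
  refine ⟨(Equiv.sigmaFiberEquiv f).symm.trans ((Equiv.sigmaCongrRight e).trans
    (Equiv.sigmaFiberEquiv g)), fun i => ?_⟩
  simp only [Equiv.trans_apply, Equiv.sigmaFiberEquiv, Equiv.coe_fn_symm_mk, Equiv.coe_fn_mk,
    Equiv.sigmaCongrRight_apply, Sigma.map]
  exact ((e (f i)) ⟨i, rfl⟩).2.symm

theorem exists_perm_of_prod {n : ℕ} {f g : Fin n → ℂ}
    (h : (∏ i : Fin n, (X - C (f i)) : ℂ[X]) = ∏ i : Fin n, (X - C (g i))) :
    ∃ σ : Equiv.Perm (Fin n), ∀ i, f i = g (σ i) := by
  classical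
  apply exists_perm_of_fibers
  intro c
  have key : ∀ f : Fin n → ℂ, Fintype.card {i // f i = c} =
      ((∏ i : Fin n, (X - C (f i)) : ℂ[X]).roots).count c := by
    intro f
    have h1 : (∏ i : Fin n, (X - C (f i)) : ℂ[X]).roots = Finset.univ.val.map f := by
      have h2 := roots_multiset_prod_X_sub_C (Finset.univ.val.map f)
      rw [Multiset.map_map] at h2
      exact h2
    rw [h1, Multiset.count_map, Fintype.card_subtype]
    rw [Finset.card_def, Finset.filter_val]
    congr 2
    funext i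
    exact propext eq_comm
  rw [key f, key g, h]

/-- permutation of the critical points -/
def permP {n : ℕ} (σ : Equiv.Perm (Fin n)) (x : PE n) : PE n := fun o =>
  o.elim (x none) (fun i => x (some (σ i)))

theorem eq_permP {a : ℂ} (ha : a ≠ 0) {n : ℕ} {x y : PE n} (h : fam a n x = fam a n y) :
    ∃ σ : Equiv.Perm (Fin n), x = permP σ y := by
  have h0 : x none = y none := by rw [← coeff_fam_zero a n x, ← coeff_fam_zero a n y, h]
  have h1 : dfam a n x = dfam a n y := by rw [← derivative_fam, ← derivative_fam, h]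
  have h2 : (C (a * ((n : ℂ) + 1)) : ℂ[X]) ≠ 0 := by
    rw [Ne, C_eq_zero]
    exact mul_ne_zero ha (Nat.cast_add_one_ne_zero n)
  have h3 := mul_left_cancel₀ h2 h1
  obtain ⟨σ, hσ⟩ := exists_perm_of_prod h3
  refine ⟨σ, ?_⟩
  funext o
  cases o with
  | none => exact h0
  | some i => exact hσ i

theorem close_perm {a : ℂ} (ha : a ≠ 0) {n : ℕ} (xT : PE n) (B : ℝ) {ε : ℝ} (hε : 0 < ε) :
    ∃ ε₁ : ℝ, 0 < ε₁ ∧ ∀ x : PE n, ‖x‖ ≤ B →
      (∀ j : ℕ, ‖(fam a n x).coeff j - (fam a n xT).coeff j‖ ≤ ε₁) →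
      ∃ σ : Equiv.Perm (Fin n), ‖x - permP σ xT‖ < ε := by
  classical
  set f : PE n → ℝ := fun x => ∑ j ∈ Finset.range (n + 2),
    ‖(fam a n x).coeff j - (fam a n xT).coeff j‖ with hf
  have hfc : Continuous f := by
    apply continuous_finset_sum
    intro j _
    exact ((pfe_fam a n j).continuous.sub continuous_const).norm
  set S : Set (PE n) := {x | ‖x‖ ≤ B ∧ ∀ σ : Equiv.Perm (Fin n), ε ≤ ‖x - permP σ xT‖} with hS
  have hSc : IsCompact S := by
    apply Metric.isCompact_of_isClosed_isBounded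
    · have h1 : S = {x | ‖x‖ ≤ B} ∩ ⋂ σ : Equiv.Perm (Fin n), {x | ε ≤ ‖x - permP σ xT‖} := by
        ext x; simp [hS]
      rw [h1]
      apply (isClosed_le continuous_norm continuous_const).inter
      apply isClosed_iInter
      intro σ
      exact isClosed_le continuous_const (by fun_prop)
    · rw [isBounded_iff_forall_norm_le]
      exact ⟨B, fun x hx => hx.1⟩
  have hpos : ∀ x ∈ S, 0 < f x := by
    intro x hx
    by_contra hcon
    have h0 : f x = 0 := le_antisymm (not_lt.mp hcon) (by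
      rw [hf]; exact Finset.sum_nonneg (fun j _ => norm_nonneg _))
    rw [hf] at h0
    have h1 := (Finset.sum_eq_zero_iff_of_nonneg (fun j _ => norm_nonneg _)).mp h0
    have h2 : fam a n x = fam a n xT := by
      ext j
      by_cases hj : j < n + 2
      · have := h1 j (Finset.mem_range.mpr hj)
        exact sub_eq_zero.mp (norm_eq_zero.mp this)
      · rw [coeff_eq_zero_of_natDegree_lt (by have := natDegree_fam_le a n x; omega),
          coeff_eq_zero_of_natDegree_lt (by have := natDegree_fam_le a n xT; omega)]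
    obtain ⟨σ, hσ⟩ := eq_permP ha h2
    have h3 := hx.2 σ
    rw [← hσ, sub_self, norm_zero] at h3
    linarith
  have hmin : ∃ m : ℝ, 0 < m ∧ ∀ x ∈ S, m ≤ f x := by
    rcases S.eq_empty_or_nonempty with he | hne
    · exact ⟨1, one_pos, fun x hx => by rw [he] at hx; exact absurd hx (Set.notMem_empty x)⟩
    · obtain ⟨x₀, hx₀, hm⟩ := hSc.exists_isMinOn hne hfc.continuousOn
      exact ⟨f x₀, hpos x₀ hx₀, fun x hx => hm hx⟩
  obtain ⟨m, hm, hmS⟩ := hmin
  refine ⟨m / (n + 3), by positivity, fun x hx hj => ?_⟩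
  by_contra hcon
  push Not at hcon
  have h1 := hmS x ⟨hx, hcon⟩
  have h2 : f x ≤ ∑ j ∈ Finset.range (n + 2), m / (n + 3) := Finset.sum_le_sum (fun j _ => hj j)
  rw [Finset.sum_const, Finset.card_range, nsmul_eq_mul] at h2
  have h3 : ((n + 2 : ℕ) : ℝ) * (m / (n + 3)) < m := by
    rw [← mul_div_assoc, div_lt_iff₀ (by positivity)]
    push_cast
    nlinarith
  linarith

/-- the linear form which separates `xT` from its permutations -/
noncomputable def qf {n : ℕ} (xT : PE n) (x : PE n) : ℂ :=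
  ∑ i : Fin n, (starRingEnd ℂ) (xT (some i)) * x (some i)

theorem qf_differentiable {n : ℕ} (xT : PE n) : Differentiable ℂ (qf xT) := by
  unfold qf
  fun_prop

theorem qf_lip {n : ℕ} (xT x y : PE n) : ‖qf xT x - qf xT y‖ ≤ (n * ‖xT‖) * ‖x - y‖ := by
  unfold qf
  rw [← Finset.sum_sub_distrib]
  have h : ∀ i ∈ (Finset.univ : Finset (Fin n)),
      ‖(starRingEnd ℂ) (xT (some i)) * x (some i) - (starRingEnd ℂ) (xT (some i)) * y (some i)‖ ≤
        ‖xT‖ * ‖x - y‖ := by
    intro i _
    rw [← mul_sub, norm_mul, RCLike.norm_conj]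
    exact mul_le_mul (norm_le_pi_norm xT (some i)) (norm_le_pi_norm (x - y) (some i))
      (norm_nonneg _) (norm_nonneg _)
  refine (norm_sum_le_of_le _ h).trans ?_
  rw [Finset.sum_const, Finset.card_univ, Fintype.card_fin, nsmul_eq_mul]
  exact le_of_eq (by ring)

theorem qf_gap {n : ℕ} (xT : PE n) (σ : Equiv.Perm (Fin n)) (h : permP σ xT ≠ xT) :
    (qf xT (permP σ xT)).re < (qf xT xT).re := by
  have hne : ∃ i : Fin n, xT (some i) ≠ xT (some (σ i)) := by
    by_contra hcon
    push Not at hcon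
    apply h
    funext o
    cases o with
    | none => rfl
    | some i => exact (hcon i).symm
  obtain ⟨i₀, hi₀⟩ := hne
  have h1 : 0 < ∑ i : Fin n, ‖xT (some i) - xT (some (σ i))‖ ^ 2 := by
    apply Finset.sum_pos'
    · intro i _; positivity
    · exact ⟨i₀, Finset.mem_univ _, by
        have : 0 < ‖xT (some i₀) - xT (some (σ i₀))‖ := norm_pos_iff.mpr (sub_ne_zero.mpr hi₀)
        positivity⟩
  have h2 : ∀ z w : ℂ, ‖z - w‖ ^ 2 = ‖z‖ ^ 2 + ‖w‖ ^ 2 - 2 * ((starRingEnd ℂ) z * w).re := by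
    intro z w
    rw [← Complex.normSq_eq_norm_sq, ← Complex.normSq_eq_norm_sq, ← Complex.normSq_eq_norm_sq,
      Complex.normSq_sub]
    have : (z * (starRingEnd ℂ) w).re = ((starRingEnd ℂ) z * w).re := by
      simp only [Complex.mul_re, Complex.conj_re, Complex.conj_im]
      ring
    rw [this]
  have h3 : ∑ i : Fin n, ‖xT (some i) - xT (some (σ i))‖ ^ 2 =
      2 * ∑ i : Fin n, ‖xT (some i)‖ ^ 2 - 2 * (qf xT (permP σ xT)).re := by
    rw [Finset.sum_congr rfl (fun i _ => h2 (xT (some i)) (xT (some (σ i)))),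
      Finset.sum_sub_distrib, Finset.sum_add_distrib,
      Equiv.sum_comp σ (fun i => ‖xT (some i)‖ ^ 2)]
    have h4 : (qf xT (permP σ xT)).re =
        ∑ i : Fin n, ((starRingEnd ℂ) (xT (some i)) * xT (some (σ i))).re := by
      unfold qf
      rw [Complex.re_sum]
      rfl
    rw [h4, ← Finset.mul_sum]
    ring
  have h5 : (qf xT xT).re = ∑ i : Fin n, ‖xT (some i)‖ ^ 2 := by
    unfold qf
    rw [Complex.re_sum]
    apply Finset.sum_congr rfl
    intro i _
    rw [← Complex.normSq_eq_norm_sq, Complex.normSq_apply]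
    simp only [Complex.mul_re, Complex.conj_re, Complex.conj_im]
    ring
  rw [h5]
  linarith

end Pool.Agent.W820.BM
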