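import Mathlib
import Pool.Agent.W820.BM.Ext1

set_option autoImplicit false

open Topology Filter Metric Set Polynomial MeasureTheory
open Pool.Agent.H713R3.ZA

namespace Pool.Agent.W820.BM

section
variable {a : ℂ} {n N : ℕ} {B Rb C₁ R₁ R₃ R R₄ s : ℝ} {ψ φ : PE n × ℂ → ℂ}

theorem uniq (ha : a ≠ 0) (hb : BO a n B Rb C₁ R₁ R₃ ψ φ) (hR : R₃ ≤ R) (hR4 : R + C₁ ≤ R₄)
    {V : Type} [NormedAddCommGroup V] [NormedSpace ℂ V] [FiniteDimensional ℂ V] {U : Set V}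
    (hUo : IsOpen U) (hUc : Convex ℝ U) {γ : V → PE n} {ω : V → ℂ}
    (hγ : DifferentiableOn ℂ γ U) (hω : DifferentiableOn ℂ ω U)
    (hγm : ∀ s ∈ U, γ s ∈ OmN a n N B R) (hωm : ∀ s ∈ U, R₄ < ‖ω s‖)
    {s₁ : V} (hs₁ : s₁ ∈ U) {Z Z' : V → ℂ} (hZ : ContinuousOn Z U) (hZ' : ContinuousOn Z' U)
    (h : Z s₁ = Z' s₁) (he : ∀ s ∈ U, (fx a n (γ s))^[N] (Z s) = ψ (γ s, ω s))
    (he' : ∀ s ∈ U, (fx a n (γ s))^[N] (Z' s) = ψ (γ s, ω s)) : ∀ s ∈ U, Z s = Z' s := by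
  obtain ⟨Z₀, -, h0, -, hu⟩ := rootX ha hb hR hR4 hUo hUc hγ hω hγm hωm hs₁ (he s₁ hs₁)
  intro s hs
  rw [hu Z hZ ⟨s₁, hs₁, h0.symm⟩ he s hs, hu Z' hZ' ⟨s₁, hs₁, by rw [h0, h]⟩ he' s hs]

theorem exists_far_real (s R₁ : ℝ) (hR₁ : 0 < R₁) : ∃ t : ℝ, (t : ℂ) ∈ HH s ∧
    R₁ < ‖Complex.exp (t : ℂ)‖ := by
  refine ⟨max (-Real.log s) (Real.log R₁) + 1, ?_, ?_⟩
  · show -Real.log s < ((max (-Real.log s) (Real.log R₁) + 1 : ℝ) : ℂ).re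
    rw [Complex.ofReal_re]
    linarith [le_max_left (-Real.log s) (Real.log R₁)]
  · rw [Complex.norm_exp, Complex.ofReal_re]
    calc R₁ = Real.exp (Real.log R₁) := (Real.exp_log hR₁).symm
      _ < _ := Real.exp_lt_exp.mpr (by linarith [le_max_right (-Real.log s) (Real.log R₁)])

theorem local_sol (ha : a ≠ 0) (hb : BO a n B Rb C₁ R₁ R₃ ψ φ) (hR : R₃ ≤ R) (hR4 : R + C₁ ≤ R₄)
    (hs : 0 < s) (hlev : ‖(QQ a n)^[N] ((s : ℂ)⁻¹)‖ = R₄) {x : PE n} {δ : ℝ} (hδ : 0 < δ)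
    (hball : ball x δ ⊆ OmN a n N B R) :
    ∃ Y : PE n × ℂ → ℂ, DifferentiableOn ℂ Y (ball x δ ×ˢ HH s) ∧
      (∀ p ∈ ball x δ ×ˢ HH s, (fx a n p.1)^[N] (Y p) = ψ (p.1, (QQ a n)^[N] (Complex.exp p.2))) ∧
      ∀ p ∈ ball x δ ×ˢ HH s, R₁ < ‖Complex.exp p.2‖ → Y p = ψ (p.1, Complex.exp p.2) := by
  have g1 := hb.hR; have g2 := hb.hC; have g3 := hb.hR₁; have g4 := hb.hR₃
  have hR₁ : 0 < R₁ := by linarith
  have hR₄ : 0 < R₄ := by linarith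
  obtain ⟨t, ht1, ht2⟩ := exists_far_real s R₁ hR₁
  have hω : Differentiable ℂ (fun p : PE n × ℂ => (QQ a n)^[N] (Complex.exp p.2)) :=
    (QQ_exp a n N).comp differentiable_snd
  have hmem : ∀ p ∈ ball x δ ×ˢ HH s, R₄ < ‖(QQ a n)^[N] (Complex.exp p.2)‖ := fun p hp =>
    QQ_lt hR₄ hs hlev (exp_HH hs hp.2)
  have hbase : (x, (t : ℂ)) ∈ ball x δ ×ˢ HH s := ⟨mem_ball_self hδ, ht1⟩
  have hfe : ∀ p ∈ ball x δ ×ˢ HH s, R₁ < ‖Complex.exp p.2‖ →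
      (fx a n p.1)^[N] (ψ (p.1, Complex.exp p.2)) = ψ (p.1, (QQ a n)^[N] (Complex.exp p.2)) :=
    fun p hp h => hb.fe_iter (hball hp.1).1 h N
  obtain ⟨Y, hYd, hY0, hYe, -⟩ := rootX (N := N) (R₄ := R₄) ha hb hR hR4 (V := PE n × ℂ)
    (U := ball x δ ×ˢ HH s)
    (isOpen_ball.prod (HH_open s)) ((convex_ball x δ).prod (HH_convex s)) (γ := Prod.fst)
    (ω := fun p => (QQ a n)^[N] (Complex.exp p.2)) differentiable_fst.differentiableOn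
    hω.differentiableOn (fun p hp => hball hp.1) hmem hbase (hfe _ hbase ht2)
  refine ⟨Y, hYd, hYe, ?_⟩
  -- agreement near infinity
  set U' : Set (PE n × ℂ) := ball x δ ×ˢ (HH s ∩ {ζ | Real.log R₁ < ζ.re}) with hU'
  have hsub : U' ⊆ ball x δ ×ˢ HH s := prod_mono subset_rfl inter_subset_left
  have hbig : ∀ ζ : ℂ, Real.log R₁ < ζ.re ↔ R₁ < ‖Complex.exp ζ‖ := by
    intro ζ
    rw [Complex.norm_exp]
    constructor
    · intro h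
      calc R₁ = Real.exp (Real.log R₁) := (Real.exp_log hR₁).symm
        _ < _ := Real.exp_lt_exp.mpr h
    · intro h
      exact (Real.log_lt_iff_lt_exp hR₁).mpr h
  have hU'o : IsOpen U' := isOpen_ball.prod
    ((HH_open s).inter (isOpen_lt continuous_const Complex.continuous_re))
  have hU'c : Convex ℝ U' := (convex_ball x δ).prod
    ((HH_convex s).inter (convex_halfSpace_re_gt _))
  have hψ : DifferentiableOn ℂ (fun p : PE n × ℂ => ψ (p.1, Complex.exp p.2)) U' := by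
    apply ψ_comp_diff hb differentiable_fst.differentiableOn
      ((Complex.differentiable_exp.comp differentiable_snd).differentiableOn)
      (fun p hp => (hball hp.1).1)
    intro p hp
    exact (hbig _).mp hp.2.2
  intro p hp hp1
  refine uniq (N := N) (R₄ := R₄) ha hb hR hR4 (γ := Prod.fst)
    (ω := fun p => (QQ a n)^[N] (Complex.exp p.2)) hU'o hU'c differentiable_fst.differentiableOn
    hω.differentiableOn (fun p hp => hball hp.1) (fun p hp => hmem p (hsub hp))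
    (s₁ := (x, (t : ℂ))) ⟨mem_ball_self hδ, ht1, (hbig _).mpr ht2⟩ (hYd.continuousOn.mono hsub)
    hψ.continuousOn hY0 (fun p hp => hYe p (hsub hp))
    (fun p hp => hfe p (hsub hp) ((hbig _).mp hp.2.2)) p ⟨hp.1, hp.2, (hbig _).mpr hp1⟩

/-- uniqueness on one slice -/
theorem uniq_slice (ha : a ≠ 0) (hb : BO a n B Rb C₁ R₁ R₃ ψ φ) (hR : R₃ ≤ R) (hR4 : R + C₁ ≤ R₄)
    (hs : 0 < s) (hlev : ‖(QQ a n)^[N] ((s : ℂ)⁻¹)‖ = R₄) {x : PE n} (hx : x ∈ OmN a n N B R)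
    {Z Z' : ℂ → ℂ} (hZ : ContinuousOn Z (HH s)) (hZ' : ContinuousOn Z' (HH s)) {ζ₁ : ℂ}
    (hζ₁ : ζ₁ ∈ HH s) (h : Z ζ₁ = Z' ζ₁)
    (he : ∀ ζ ∈ HH s, (fx a n x)^[N] (Z ζ) = ψ (x, (QQ a n)^[N] (Complex.exp ζ)))
    (he' : ∀ ζ ∈ HH s, (fx a n x)^[N] (Z' ζ) = ψ (x, (QQ a n)^[N] (Complex.exp ζ))) :
    ∀ ζ ∈ HH s, Z ζ = Z' ζ := by
  have g1 := hb.hR; have g2 := hb.hC; have g3 := hb.hR₁; have g4 := hb.hR₃
  have hR₄ : 0 < R₄ := by linarith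
  exact uniq (N := N) (R₄ := R₄) ha hb hR hR4 (γ := fun _ : ℂ => x)
    (ω := fun ζ => (QQ a n)^[N] (Complex.exp ζ)) (HH_open s) (HH_convex s)
    (differentiableOn_const x) (QQ_exp a n N).differentiableOn (fun _ _ => hx)
    (fun ζ hζ => QQ_lt hR₄ hs hlev (exp_HH hs hζ)) hζ₁ hZ hZ' h he he'

theorem exists_Psi (ha : a ≠ 0) (hb : BO a n B Rb C₁ R₁ R₃ ψ φ) (hR : R₃ ≤ R)
    (hR4 : R + C₁ ≤ R₄) (hs : 0 < s) (hlev : ‖(QQ a n)^[N] ((s : ℂ)⁻¹)‖ = R₄) :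
    ∃ Ψ : PE n × ℂ → ℂ, DifferentiableOn ℂ Ψ (OmN a n N B R ×ˢ HH s) ∧
      (∀ x ∈ OmN a n N B R, ∀ ζ ∈ HH s,
        (fx a n x)^[N] (Ψ (x, ζ)) = ψ (x, (QQ a n)^[N] (Complex.exp ζ))) ∧
      (∀ x ∈ OmN a n N B R, ∀ ζ ∈ HH s, R₁ < ‖Complex.exp ζ‖ → Ψ (x, ζ) = ψ (x, Complex.exp ζ)) ∧
      ∀ x ∈ OmN a n N B R, ∀ ζ ∈ HH s, ∀ ζ' : ℂ, Complex.exp ζ' = Complex.exp ζ →
        Ψ (x, ζ') = Ψ (x, ζ) := by
  have g1 := hb.hR; have g2 := hb.hC; have g3 := hb.hR₁; have g4 := hb.hR₃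
  have hR₁ : 0 < R₁ := by linarith
  obtain ⟨t, ht1, ht2⟩ := exists_far_real s R₁ hR₁
  have hop := isOpen_OmN a n N B R
  have h1 : ∀ x ∈ OmN a n N B R, ∃ δ : ℝ, 0 < δ ∧ ball x δ ⊆ OmN a n N B R :=
    fun x hx => Metric.isOpen_iff.mp hop x hx
  choose! δ hδ hball using h1
  have h2 : ∀ x ∈ OmN a n N B R, ∃ Y : PE n × ℂ → ℂ,
      DifferentiableOn ℂ Y (ball x (δ x) ×ˢ HH s) ∧
      (∀ p ∈ ball x (δ x) ×ˢ HH s,
        (fx a n p.1)^[N] (Y p) = ψ (p.1, (QQ a n)^[N] (Complex.exp p.2))) ∧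
      ∀ p ∈ ball x (δ x) ×ˢ HH s, R₁ < ‖Complex.exp p.2‖ → Y p = ψ (p.1, Complex.exp p.2) :=
    fun x hx => local_sol ha hb hR hR4 hs hlev (hδ x hx) (hball x hx)
  choose! Y hYd hYe hYf using h2
  -- consistency
  have hcont : ∀ x ∈ OmN a n N B R, ∀ y ∈ ball x (δ x),
      ContinuousOn (fun ζ : ℂ => Y x (y, ζ)) (HH s) := by
    intro x hx y hy
    exact (hYd x hx).continuousOn.comp (by fun_prop) (fun ζ hζ => ⟨hy, hζ⟩)
  have hcons : ∀ x ∈ OmN a n N B R, ∀ y ∈ ball x (δ x), ∀ ζ ∈ HH s,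
      Y y (y, ζ) = Y x (y, ζ) := by
    intro x hx y hy
    have hy' : y ∈ OmN a n N B R := hball x hx hy
    have hyy : y ∈ ball y (δ y) := mem_ball_self (hδ y hy')
    refine uniq_slice ha hb hR hR4 hs hlev hy' (hcont y hy' y hyy) (hcont x hx y hy) ht1 ?_
      (fun ζ hζ => hYe y hy' (y, ζ) ⟨hyy, hζ⟩) (fun ζ hζ => hYe x hx (y, ζ) ⟨hy, hζ⟩)
    show Y y (y, (t : ℂ)) = Y x (y, (t : ℂ))
    rw [hYf y hy' (y, (t : ℂ)) ⟨hyy, ht1⟩ ht2, hYf x hx (y, (t : ℂ)) ⟨hy, ht1⟩ ht2]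
  refine ⟨fun p => Y p.1 p, ?_, ?_, ?_, ?_⟩
  · rintro ⟨x, ζ⟩ ⟨hx, hζ⟩
    apply DifferentiableAt.differentiableWithinAt
    have h3 : DifferentiableAt ℂ (Y x) (x, ζ) := (hYd x hx).differentiableAt
      ((isOpen_ball.prod (HH_open s)).mem_nhds ⟨mem_ball_self (hδ x hx), hζ⟩)
    apply h3.congr_of_eventuallyEq
    have h4 : ball x (δ x) ×ˢ HH s ∈ 𝓝 (x, ζ) :=
      (isOpen_ball.prod (HH_open s)).mem_nhds ⟨mem_ball_self (hδ x hx), hζ⟩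
    filter_upwards [h4] with p hp
    exact hcons x hx p.1 hp.1 p.2 hp.2
  · intro x hx ζ hζ
    exact hYe x hx (x, ζ) ⟨mem_ball_self (hδ x hx), hζ⟩
  · intro x hx ζ hζ h
    exact hYf x hx (x, ζ) ⟨mem_ball_self (hδ x hx), hζ⟩ h
  · intro x hx ζ hζ ζ' he
    have hxx : x ∈ ball x (δ x) := mem_ball_self (hδ x hx)
    obtain ⟨k, hk⟩ := Complex.exp_eq_exp_iff_exists_int.mp he
    have hre : ∀ ξ : ℂ, (ξ + k * (2 * Real.pi * Complex.I)).re = ξ.re := by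
      intro ξ; simp
    have hexp : ∀ ξ : ℂ, Complex.exp (ξ + k * (2 * Real.pi * Complex.I)) = Complex.exp ξ := by
      intro ξ
      exact Complex.exp_eq_exp_iff_exists_int.mpr ⟨k, rfl⟩
    have hmem : ∀ ξ ∈ HH s, ξ + k * (2 * Real.pi * Complex.I) ∈ HH s := by
      intro ξ hξ
      show -Real.log s < _
      rw [hre]; exact hξ
    have h5 := uniq_slice ha hb hR hR4 hs hlev hx
      (Z := fun ξ => Y x (x, ξ + k * (2 * Real.pi * Complex.I))) (Z' := fun ξ => Y x (x, ξ))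
      ((hcont x hx x hxx).comp (by fun_prop) hmem) (hcont x hx x hxx) ht1 (by
        have e1 : Y x (x, (t : ℂ) + k * (2 * Real.pi * Complex.I)) =
            ψ (x, Complex.exp ((t : ℂ) + k * (2 * Real.pi * Complex.I))) :=
          hYf x hx (x, (t : ℂ) + k * (2 * Real.pi * Complex.I)) ⟨hxx, hmem _ ht1⟩ (by
            show R₁ < ‖Complex.exp ((t : ℂ) + k * (2 * Real.pi * Complex.I))‖
            rw [hexp]; exact ht2)
        have e2 : Y x (x, (t : ℂ)) = ψ (x, Complex.exp (t : ℂ)) := hYf x hx (x, (t : ℂ)) ⟨hxx, ht1⟩ ht2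
        show Y x (x, (t : ℂ) + k * (2 * Real.pi * Complex.I)) = Y x (x, (t : ℂ))
        rw [e1, e2, hexp])
      (fun ξ hξ => by
        have := hYe x hx (x, ξ + k * (2 * Real.pi * Complex.I)) ⟨hxx, hmem ξ hξ⟩
        simp only at this
        rw [this, hexp])
      (fun ξ hξ => hYe x hx (x, ξ) ⟨hxx, hξ⟩) ζ hζ
    simp only at h5 ⊢
    rw [hk]
    exact h5

end

end Pool.Agent.W820.BM
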