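import Mathlib
import Pool.Agent.W820.BM.Ext2
import Pool.Agent.Helper540.Holo

set_option autoImplicit false

open Topology Filter Metric Set Polynomial MeasureTheory
open Pool.Agent.H713R3.ZA Pool.Agent.H713R3.ZA.GAIN

namespace Pool.Agent.W820.BM

theorem QQ_form {a : ℂ} (ha : a ≠ 0) (n N : ℕ) : ∃ α : ℂ, α ≠ 0 ∧ ∀ w : ℂ,
    (QQ a n)^[N] w = α * w ^ ((n + 1) ^ N) := by
  induction N with
  | zero => exact ⟨1, one_ne_zero, fun w => by simp⟩
  | succ N ih =>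
    obtain ⟨α, hα, h⟩ := ih
    refine ⟨a * α ^ (n + 1), mul_ne_zero ha (pow_ne_zero _ hα), fun w => ?_⟩
    rw [Function.iterate_succ_apply']
    have h2 : QQ a n ((QQ a n)^[N] w) = a * (QQ a n)^[N] w ^ (n + 1) := rfl
    rw [h2, h, mul_pow, ← pow_mul, ← mul_assoc, pow_succ (n + 1) N]

section
variable {a : ℂ} {n N : ℕ} {B Rb C₁ R₁ R₃ R R₄ s : ℝ} {ψ φ : PE n × ℂ → ℂ}

/-- the coordinate -/
noncomputable def Gf (Ψ : PE n × ℂ → ℂ) (p : PE n × ℂ) : ℂ :=
  if p.2 = 0 then 1 else p.2 * Ψ (p.1, -Complex.log p.2)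

theorem Gf_of_ne {Ψ : PE n × ℂ → ℂ} {x : PE n} {t : ℂ} (ht : t ≠ 0) :
    Gf Ψ (x, t) = t * Ψ (x, -Complex.log t) := by
  simp [Gf, ht]

theorem inv_Gf {Ψ : PE n × ℂ → ℂ} {x : PE n} {t : ℂ} (ht : t ≠ 0) :
    t⁻¹ * Gf Ψ (x, t) = Ψ (x, -Complex.log t) := by
  rw [Gf_of_ne ht, ← mul_assoc, inv_mul_cancel₀ ht, one_mul]

theorem exp_neg_log {t : ℂ} (ht : t ≠ 0) : Complex.exp (-Complex.log t) = t⁻¹ := by
  rw [Complex.exp_neg, Complex.exp_log ht]

theorem neg_log_mem {t : ℂ} (ht : t ≠ 0) (hts : ‖t‖ < s) : -Complex.log t ∈ HH s := by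
  show -Real.log s < (-Complex.log t).re
  rw [Complex.neg_re, Complex.log_re]
  have := Real.log_lt_log (norm_pos_iff.mpr ht) hts
  linarith

/-- differentiability off the origin -/
theorem Gf_diff_ne (hs : 0 < s) {Ψ : PE n × ℂ → ℂ}
    (hd : DifferentiableOn ℂ Ψ (OmN a n N B R ×ˢ HH s))
    (hper : ∀ x ∈ OmN a n N B R, ∀ ζ ∈ HH s, ∀ ζ' : ℂ, Complex.exp ζ' = Complex.exp ζ →
        Ψ (x, ζ') = Ψ (x, ζ)) {x : PE n} (hx : x ∈ OmN a n N B R) {t : ℂ} (ht : t ≠ 0)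
    (hts : ‖t‖ < s) : DifferentiableAt ℂ (Gf Ψ) (x, t) := by
  have hop := isOpen_OmN a n N B R
  -- local branch
  set ℓ : ℂ → ℂ := fun u => -(Complex.log t + Complex.log (u / t)) with hℓ
  have hℓt : ℓ t = -Complex.log t := by simp [hℓ, div_self ht]
  have hslit : t / t ∈ Complex.slitPlane := by rw [div_self ht]; simp
  have hℓd : DifferentiableAt ℂ ℓ t := by
    apply DifferentiableAt.neg
    apply DifferentiableAt.const_add
    apply DifferentiableAt.clog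
    · exact differentiableAt_id.div_const t
    · exact hslit
  have hexp : ∀ u : ℂ, u ≠ 0 → Complex.exp (ℓ u) = u⁻¹ := by
    intro u hu
    simp only [hℓ]
    rw [Complex.exp_neg, Complex.exp_add, Complex.exp_log ht, Complex.exp_log (div_ne_zero hu ht)]
    field_simp
  have hm : (x, ℓ t) ∈ OmN a n N B R ×ˢ HH s := by
    rw [hℓt]; exact ⟨hx, neg_log_mem ht hts⟩
  have h1 : DifferentiableAt ℂ Ψ (x, ℓ t) := hd.differentiableAt ((hop.prod (HH_open s)).mem_nhds hm)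
  have h2 : DifferentiableAt ℂ (fun p : PE n × ℂ => ((p.1, ℓ p.2) : PE n × ℂ)) (x, t) := by
    apply DifferentiableAt.prodMk differentiableAt_fst
    exact DifferentiableAt.comp (x, t) (f := Prod.snd) (g := ℓ) hℓd differentiableAt_snd
  have h3 : DifferentiableAt ℂ (fun p : PE n × ℂ => p.2 * Ψ (p.1, ℓ p.2)) (x, t) := by
    apply DifferentiableAt.mul differentiableAt_snd
    exact DifferentiableAt.comp (x, t) (f := fun p : PE n × ℂ => ((p.1, ℓ p.2) : PE n × ℂ))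
      (g := Ψ) h1 h2
  apply h3.congr_of_eventuallyEq
  have hnb : {p : PE n × ℂ | p.1 ∈ OmN a n N B R ∧ p.2 ≠ 0 ∧ ‖p.2‖ < s} ∈ 𝓝 (x, t) := by
    have ho : IsOpen {p : PE n × ℂ | p.1 ∈ OmN a n N B R ∧ p.2 ≠ 0 ∧ ‖p.2‖ < s} := by
      apply (hop.preimage continuous_fst).inter
      exact (isOpen_ne.preimage continuous_snd).inter
        (isOpen_lt continuous_snd.norm continuous_const)
    exact ho.mem_nhds (show (x, t) ∈ {p : PE n × ℂ | p.1 ∈ OmN a n N B R ∧ p.2 ≠ 0 ∧ ‖p.2‖ < s}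
      from ⟨hx, ht, hts⟩)
  filter_upwards [hnb] with p hp
  obtain ⟨hp1, hp2, hp3⟩ := hp
  have h4 : Gf Ψ p = p.2 * Ψ (p.1, -Complex.log p.2) := Gf_of_ne hp2
  rw [h4, hper p.1 hp1 _ (neg_log_mem hp2 hp3) (ℓ p.2) (by rw [hexp _ hp2, exp_neg_log hp2])]

/-- differentiability at the origin -/
theorem Gf_diff_zero (hb : BO a n B Rb C₁ R₁ R₃ ψ φ) (hs : 0 < s) {Ψ : PE n × ℂ → ℂ}
    (hfar : ∀ x ∈ OmN a n N B R, ∀ ζ ∈ HH s, R₁ < ‖Complex.exp ζ‖ →
      Ψ (x, ζ) = ψ (x, Complex.exp ζ)) {x : PE n} (hx : x ∈ OmN a n N B R) :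
    DifferentiableAt ℂ (Gf Ψ) (x, 0) := by
  have g1 := hb.hR; have g2 := hb.hC; have g3 := hb.hR₁; have g4 := hb.hR₃
  have hop := isOpen_OmN a n N B R
  have hR₁1 : 1 ≤ R₁ := by linarith
  have hR₁ : 0 < R₁ := by linarith
  obtain ⟨δ, hδ, hball⟩ := Metric.isOpen_iff.mp hop x hx
  set r : ℝ := min s R₁⁻¹ / 2 with hr
  have hr0 : 0 < r := by rw [hr]; have := inv_pos.mpr hR₁; positivity
  have hrs : r < s := by
    have : min s R₁⁻¹ ≤ s := min_le_left _ _
    rw [hr]; linarith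
  have hrR : r < R₁⁻¹ := by
    have : min s R₁⁻¹ ≤ R₁⁻¹ := min_le_right _ _
    have := inv_pos.mpr hR₁
    rw [hr]; linarith
  have hbig : ∀ t : ℂ, t ≠ 0 → ‖t‖ ≤ r → R₁ < ‖t⁻¹‖ := by
    intro t ht htr
    rw [norm_inv]
    exact (lt_inv_comm₀ (norm_pos_iff.2 ht) hR₁).1 (htr.trans_lt hrR)
  -- the function of one variable
  set g : PE n → ℂ → ℂ := fun y => gg (fun w => ψ (y, w)) with hg
  have hgd : ∀ y ∈ OmN a n N B R, DifferentiableOn ℂ (g y) (ball 0 R₁⁻¹) := by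
    intro y hy
    have h1 : DifferentiableOn ℂ (fun w => ψ (y, w)) {w : ℂ | R₁ < ‖w‖} :=
      hb.ψd.comp (by fun_prop) (fun w hw => ⟨hy.1, hw⟩)
    exact (isExt hR₁1 h1 (hb.ψi y hy.1) (hb.ψc y hy.1)).diff
  have hGg : ∀ y ∈ OmN a n N B R, ∀ t : ℂ, ‖t‖ ≤ r → Gf Ψ (y, t) = g y t := by
    intro y hy t ht
    by_cases h0 : t = 0
    · subst h0; simp [Gf, hg, gg]
    · rw [Gf_of_ne h0, hg]
      simp only
      rw [gg_of_ne h0, hfar y hy _ (neg_log_mem h0 (ht.trans_lt hrs)) (by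
        rw [exp_neg_log h0]; exact hbig t h0 ht), exp_neg_log h0]
  have hg0 : ∀ y, g y 0 = 1 := fun y => by simp [hg, gg]
  -- difference quotients
  set D : PE n → ℂ → ℂ := fun y => dslope (g y) 0 with hD
  have hDd : ∀ y ∈ OmN a n N B R, DifferentiableOn ℂ (D y) (ball 0 R₁⁻¹) := by
    intro y hy
    exact (Complex.differentiableOn_dslope (ball_mem_nhds 0 (inv_pos.mpr hR₁))).mpr (hgd y hy)
  have hDe : ∀ y, ∀ t : ℂ, g y t = 1 + t * D y t := by
    intro y t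
    have := sub_smul_dslope (g y) 0 t
    rw [sub_zero, smul_eq_mul, hg0] at this
    simp only [hD]
    linear_combination -this
  -- Lipschitz bound in the parameter
  obtain ⟨L, hL0, hL⟩ : ∃ L : ℝ, 0 ≤ L ∧ ∀ y ∈ ball x (δ / 2), ∀ t ∈ closedBall (0 : ℂ) r,
      ‖D y t - D x t‖ ≤ L * ‖y - x‖ := by
    refine ⟨4 * (2 * C₁) / δ, by positivity, ?_⟩
    intro y hy t ht
    have hyO : y ∈ OmN a n N B R := hball (ball_subset_ball (by linarith) hy)
    have hsph : ∀ τ : ℂ, ‖τ‖ = r → ‖D y τ - D x τ‖ ≤ 4 * (2 * C₁) / δ * ‖y - x‖ := by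
      intro τ hτ
      have hτ0 : τ ≠ 0 := by
        rintro rfl
        rw [norm_zero] at hτ
        linarith
      have h1 : ∀ z, z ∈ OmN a n N B R → D z τ = ψ (z, τ⁻¹) - τ⁻¹ := by
        intro z hz
        have h2 := hDe z τ
        have h3 : g z τ = τ * ψ (z, τ⁻¹) := by
          simp only [hg]; rw [gg_of_ne hτ0]
        rw [h3] at h2
        have h4 : τ * D z τ = τ * (ψ (z, τ⁻¹) - τ⁻¹) := by
          rw [mul_sub, mul_inv_cancel₀ hτ0]; linear_combination -h2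
        exact mul_left_cancel₀ hτ0 h4
      rw [h1 y hyO, h1 x hx]
      have h5 : DifferentiableOn ℂ (fun z : PE n => ψ (z, τ⁻¹) - τ⁻¹) (ball x δ) := by
        apply DifferentiableOn.sub_const
        exact hb.ψd.comp (by fun_prop) (fun z hz => ⟨(hball hz).1, hbig τ hτ0 hτ.le⟩)
      have h6 := Pool.Agent.Helper540.lipschitz_half h5 (M := 2 * C₁) (fun z hz => by
        have := hb.ψc z (hball hz).1 τ⁻¹ (hbig τ hτ0 hτ.le)
        linarith) (w := x) (z := y) (mem_ball_self (by positivity)) hy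
      exact h6
    have h7 : DiffContOnCl ℂ (fun τ => D y τ - D x τ) (ball 0 r) := by
      have h8 : DifferentiableOn ℂ (fun τ => D y τ - D x τ) (ball 0 R₁⁻¹) :=
        (hDd y hyO).sub (hDd x hx)
      constructor
      · exact h8.mono (ball_subset_ball hrR.le)
      · rw [closure_ball (0 : ℂ) hr0.ne']
        exact h8.continuousOn.mono (closedBall_subset_ball hrR)
    exact Complex.norm_le_of_forall_mem_frontier_norm_le isBounded_ball h7 (by
      intro z hz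
      rw [frontier_ball (0 : ℂ) hr0.ne', mem_sphere_zero_iff_norm] at hz
      exact hsph z hz) (by rw [closure_ball (0 : ℂ) hr0.ne']; exact ht)
  -- the derivative
  have hcont : ContinuousAt (D x) 0 :=
    ((hDd x hx).differentiableAt (ball_mem_nhds 0 (inv_pos.mpr hR₁))).continuousAt
  set c := D x 0 with hc
  have hkey : HasFDerivAt (Gf Ψ) (c • ContinuousLinearMap.snd ℂ (PE n) ℂ) (x, (0 : ℂ)) := by
    rw [hasFDerivAt_iff_isLittleO, Asymptotics.isLittleO_iff]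
    intro ε hε
    obtain ⟨ρ, hρ, hρc⟩ := Metric.continuousAt_iff.mp hcont (ε / 2) (by positivity)
    set κ : ℝ := min (min (δ / 2) (ε / (2 * (L + 1)))) (min r (ρ / 2)) with hκ
    have hκ0 : 0 < κ := by rw [hκ]; positivity
    have hnb : ball (x, (0 : ℂ)) κ ∈ 𝓝 (x, (0 : ℂ)) := ball_mem_nhds _ hκ0
    filter_upwards [hnb] with p hp
    rw [mem_ball, dist_eq_norm] at hp
    have hp1 : ‖p.1 - x‖ < κ := lt_of_le_of_lt (norm_fst_le (p - (x, (0 : ℂ)))) hp
    have hp2 : ‖p.2‖ < κ := by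
      have := lt_of_le_of_lt (norm_snd_le (p - (x, (0 : ℂ)))) hp
      simpa using this
    have k1 : κ ≤ δ / 2 := (min_le_left _ _).trans (min_le_left _ _)
    have k2 : κ ≤ ε / (2 * (L + 1)) := (min_le_left _ _).trans (min_le_right _ _)
    have k3 : κ ≤ r := (min_le_right _ _).trans (min_le_left _ _)
    have k4 : κ ≤ ρ / 2 := (min_le_right _ _).trans (min_le_right _ _)
    have hy : p.1 ∈ ball x (δ / 2) := by
      rw [mem_ball, dist_eq_norm]; linarith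
    have hyO : p.1 ∈ OmN a n N B R := hball (ball_subset_ball (by linarith) hy)
    have e1 : Gf Ψ p = 1 + p.2 * D p.1 p.2 := by
      rw [← hDe]; exact hGg p.1 hyO p.2 (by linarith)
    have e2 : Gf Ψ (x, (0 : ℂ)) = 1 := by simp [Gf]
    have e3 : Gf Ψ p - Gf Ψ (x, (0 : ℂ)) -
        (c • ContinuousLinearMap.snd ℂ (PE n) ℂ) (p - (x, (0 : ℂ))) = p.2 * (D p.1 p.2 - c) := by
      rw [e1, e2]
      simp
      ring
    rw [e3, norm_mul]
    have h8 := hL p.1 hy p.2 (by rw [mem_closedBall_zero_iff]; linarith)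
    have h9 : ‖D x p.2 - c‖ < ε / 2 := by
      have := hρc (x := p.2) (by rw [dist_zero_right]; linarith)
      rwa [dist_eq_norm] at this
    have h10 : L * ‖p.1 - x‖ ≤ ε / 2 := by
      have h11 : ‖p.1 - x‖ ≤ ε / (2 * (L + 1)) := by linarith
      calc L * ‖p.1 - x‖ ≤ (L + 1) * (ε / (2 * (L + 1))) :=
            mul_le_mul (by linarith) h11 (norm_nonneg _) (by linarith)
        _ = ε / 2 := by field_simp
    have h12 : ‖D p.1 p.2 - c‖ ≤ ε := by
      have : D p.1 p.2 - c = (D p.1 p.2 - D x p.2) + (D x p.2 - c) := by ring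
      rw [this]
      refine (norm_add_le _ _).trans ?_
      linarith
    have h13 : ‖p.2‖ ≤ ‖p - (x, (0 : ℂ))‖ := by
      have := norm_snd_le (p - (x, (0 : ℂ)))
      simpa using this
    calc ‖p.2‖ * ‖D p.1 p.2 - c‖ ≤ ‖p - (x, (0 : ℂ))‖ * ε :=
          mul_le_mul h13 h12 (norm_nonneg _) (norm_nonneg _)
      _ = ε * ‖p - (x, (0 : ℂ))‖ := mul_comm _ _
  exact hkey.differentiableAt

end

end Pool.Agent.W820.BM
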