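import Mathlib
import Pool.Agent.W820.BM.Ext3

set_option autoImplicit false

open Topology Filter Metric Set Polynomial MeasureTheory
open Pool.Agent.H713R3.ZA Pool.Agent.H713R3.ZA.GAIN

namespace Pool.Agent.W820.BM

section
variable {a : ℂ} {n N : ℕ} {B Rb C₁ R₁ R₃ R R₄ s : ℝ} {ψ φ : PE n × ℂ → ℂ}

/-- A solution on a slice is the main solution up to a translation by `2 π i j / d ^ N`. -/
theorem slice_shift (ha : a ≠ 0) (hb : BO a n B Rb C₁ R₁ R₃ ψ φ) (hR : R₃ ≤ R)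
    (hR4 : R + C₁ ≤ R₄) (hs : 0 < s) (hlev : ‖(QQ a n)^[N] ((s : ℂ)⁻¹)‖ = R₄) {α : ℂ} (hα : α ≠ 0)
    (hQ : ∀ w : ℂ, (QQ a n)^[N] w = α * w ^ ((n + 1) ^ N)) {Ψ : PE n × ℂ → ℂ}
    (hd : DifferentiableOn ℂ Ψ (OmN a n N B R ×ˢ HH s))
    (heq : ∀ x ∈ OmN a n N B R, ∀ ζ ∈ HH s,
        (fx a n x)^[N] (Ψ (x, ζ)) = ψ (x, (QQ a n)^[N] (Complex.exp ζ)))
    {x : PE n} (hx : x ∈ OmN a n N B R) {κ : ℂ} (hκ : Complex.exp (((n + 1) ^ N : ℕ) * κ) = 1)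
    {Z : ℂ → ℂ} (hZ : ContinuousOn Z (HH s))
    (hZe : ∀ ζ ∈ HH s, (fx a n x)^[N] (Z ζ) = ψ (x, (QQ a n)^[N] (Complex.exp ζ)))
    {ζ₁ : ℂ} (hζ₁ : ζ₁ ∈ HH s) (h1 : Z ζ₁ = Ψ (x, ζ₁ + κ)) : ∀ ζ ∈ HH s, Z ζ = Ψ (x, ζ + κ) := by
  have hκre : κ.re = 0 := by
    have h2 : ‖Complex.exp (((n + 1) ^ N : ℕ) * κ)‖ = 1 := by rw [hκ, norm_one]
    rw [Complex.norm_exp] at h2
    have h3 : (((((n + 1) ^ N : ℕ) : ℂ)) * κ).re = (((n + 1) ^ N : ℕ) : ℝ) * κ.re := by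
      rw [← Complex.ofReal_natCast, Complex.re_ofReal_mul]
    rw [h3, Real.exp_eq_one_iff] at h2
    have h4 : (((n + 1) ^ N : ℕ) : ℝ) ≠ 0 := by positivity
    exact (mul_eq_zero.mp h2).resolve_left h4
  have hmem : ∀ ζ ∈ HH s, ζ + κ ∈ HH s := by
    intro ζ hζ
    show -Real.log s < (ζ + κ).re
    rw [Complex.add_re, hκre, add_zero]
    exact hζ
  have hQκ : ∀ ζ : ℂ, (QQ a n)^[N] (Complex.exp (ζ + κ)) = (QQ a n)^[N] (Complex.exp ζ) := by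
    intro ζ
    rw [hQ, hQ, Complex.exp_add, mul_pow, ← Complex.exp_nat_mul κ, hκ, mul_one]
  refine uniq_slice ha hb hR hR4 hs hlev hx hZ ?_ hζ₁ h1 hZe ?_
  · exact hd.continuousOn.comp (by fun_prop) (fun ζ hζ => ⟨hx, hmem ζ hζ⟩)
  · intro ζ hζ
    rw [heq x hx _ (hmem ζ hζ), hQκ]

theorem Gf_inj (ha : a ≠ 0) (hb : BO a n B Rb C₁ R₁ R₃ ψ φ) (hR : R₃ ≤ R)
    (hR4 : R + C₁ ≤ R₄) (hs : 0 < s) (hlev : ‖(QQ a n)^[N] ((s : ℂ)⁻¹)‖ = R₄) {Ψ : PE n × ℂ → ℂ}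
    (hd : DifferentiableOn ℂ Ψ (OmN a n N B R ×ˢ HH s))
    (heq : ∀ x ∈ OmN a n N B R, ∀ ζ ∈ HH s,
        (fx a n x)^[N] (Ψ (x, ζ)) = ψ (x, (QQ a n)^[N] (Complex.exp ζ)))
    (hfar : ∀ x ∈ OmN a n N B R, ∀ ζ ∈ HH s, R₁ < ‖Complex.exp ζ‖ →
      Ψ (x, ζ) = ψ (x, Complex.exp ζ))
    {x : PE n} (hx : x ∈ OmN a n N B R) {t u : ℂ} (ht : ‖t‖ < s) (hu : ‖u‖ < s) (ht0 : t ≠ 0)
    (hu0 : u ≠ 0) (h : t⁻¹ * Gf Ψ (x, t) = u⁻¹ * Gf Ψ (x, u)) : t = u := by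
  have g1 := hb.hR; have g2 := hb.hC; have g3 := hb.hR₁; have g4 := hb.hR₃
  have hR₁ : 0 < R₁ := by linarith
  have hR₄ : 0 < R₄ := by linarith
  obtain ⟨α, hα, hQ⟩ := QQ_form ha n N
  rw [inv_Gf ht0, inv_Gf hu0] at h
  set ζ := -Complex.log t with hζ
  set ξ := -Complex.log u with hξ
  have hζm : ζ ∈ HH s := neg_log_mem ht0 ht
  have hξm : ξ ∈ HH s := neg_log_mem hu0 hu
  have h1 := heq x hx ζ hζm
  have h2 := heq x hx ξ hξm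
  rw [h, h2] at h1
  have h3 := hb.ψi x hx.1 (by
    show R₁ < ‖(QQ a n)^[N] (Complex.exp ξ)‖
    have := QQ_lt hR₄ hs hlev (exp_HH hs hξm); linarith) (by
    show R₁ < ‖(QQ a n)^[N] (Complex.exp ζ)‖
    have := QQ_lt hR₄ hs hlev (exp_HH hs hζm); linarith) h1
  rw [hQ, hQ] at h3
  have h4 := mul_left_cancel₀ hα h3
  set κ := ξ - ζ with hκ
  have hκ1 : Complex.exp (((n + 1) ^ N : ℕ) * κ) = 1 := by
    rw [Complex.exp_nat_mul, hκ, Complex.exp_sub, div_pow, h4, div_self]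
    exact pow_ne_zero _ (Complex.exp_ne_zero _)
  have hξκ : ξ = ζ + κ := by rw [hκ]; ring
  obtain ⟨t₀, ht1, ht2⟩ := exists_far_real s R₁ hR₁
  have hc : ContinuousOn (fun ζ : ℂ => Ψ (x, ζ)) (HH s) :=
    hd.continuousOn.comp (by fun_prop) (fun ζ hζ => ⟨hx, hζ⟩)
  have h5 := slice_shift ha hb hR hR4 hs hlev hα hQ hd heq hx hκ1 hc
    (fun ζ hζ => heq x hx ζ hζ) hζm (by rw [← hξκ]; exact h) (t₀ : ℂ) ht1
  have hκre : κ.re = 0 := by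
    have h2 : ‖Complex.exp (((n + 1) ^ N : ℕ) * κ)‖ = 1 := by rw [hκ1, norm_one]
    rw [Complex.norm_exp] at h2
    have h3 : (((((n + 1) ^ N : ℕ) : ℂ)) * κ).re = (((n + 1) ^ N : ℕ) : ℝ) * κ.re := by
      rw [← Complex.ofReal_natCast, Complex.re_ofReal_mul]
    rw [h3, Real.exp_eq_one_iff] at h2
    have h4 : (((n + 1) ^ N : ℕ) : ℝ) ≠ 0 := by positivity
    exact (mul_eq_zero.mp h2).resolve_left h4
  have hre : ((t₀ : ℂ) + κ).re = (t₀ : ℂ).re := by rw [Complex.add_re, hκre, add_zero]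
  have h6 : (t₀ : ℂ) + κ ∈ HH s := by
    show -Real.log s < _
    rw [hre]; exact ht1
  have h7 : R₁ < ‖Complex.exp ((t₀ : ℂ) + κ)‖ := by
    rw [Complex.norm_exp, hre, ← Complex.norm_exp]; exact ht2
  rw [hfar x hx _ ht1 ht2, hfar x hx _ h6 h7] at h5
  have h8 := hb.ψi x hx.1 ht2 h7 h5
  rw [Complex.exp_add] at h8
  have h9 : Complex.exp κ = 1 := by
    have h10 : Complex.exp (t₀ : ℂ) * Complex.exp κ = Complex.exp (t₀ : ℂ) * 1 := by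
      rw [mul_one]; exact h8.symm
    exact mul_left_cancel₀ (Complex.exp_ne_zero _) h10
  have h11 : Complex.exp ξ = Complex.exp ζ := by rw [hξκ, Complex.exp_add, h9, mul_one]
  rw [hξ, hζ, exp_neg_log hu0, exp_neg_log ht0] at h11
  exact (inv_injective h11).symm

theorem Gf_surj (ha : a ≠ 0) (hb : BO a n B Rb C₁ R₁ R₃ ψ φ) (hR : R₃ ≤ R)
    (hR4 : R + C₁ ≤ R₄) (hs : 0 < s) (hlev : ‖(QQ a n)^[N] ((s : ℂ)⁻¹)‖ = R₄) {Ψ : PE n × ℂ → ℂ}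
    (hd : DifferentiableOn ℂ Ψ (OmN a n N B R ×ˢ HH s))
    (heq : ∀ x ∈ OmN a n N B R, ∀ ζ ∈ HH s,
        (fx a n x)^[N] (Ψ (x, ζ)) = ψ (x, (QQ a n)^[N] (Complex.exp ζ)))
    (hfar : ∀ x ∈ OmN a n N B R, ∀ ζ ∈ HH s, R₁ < ‖Complex.exp ζ‖ →
      Ψ (x, ζ) = ψ (x, Complex.exp ζ))
    (hper : ∀ x ∈ OmN a n N B R, ∀ ζ ∈ HH s, ∀ ζ' : ℂ, Complex.exp ζ' = Complex.exp ζ →
        Ψ (x, ζ') = Ψ (x, ζ))
    {x : PE n} (hx : x ∈ OmN a n N B R) {s' : ℝ} {z : ℂ} (hs' : 0 < s') (hs's : s' ≤ s)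
    (hz : ‖(QQ a n)^[N] ((s' : ℂ)⁻¹)‖ + C₁ < ‖(fx a n x)^[N] z‖) :
    ∃ t : ℂ, t ≠ 0 ∧ ‖t‖ < s' ∧ t⁻¹ * Gf Ψ (x, t) = z := by
  have g1 := hb.hR; have g2 := hb.hC; have g3 := hb.hR₁; have g4 := hb.hR₃
  have hR₁ : 0 < R₁ := by linarith
  have hR₄ : 0 < R₄ := by linarith
  obtain ⟨α, hα, hQ⟩ := QQ_form ha n N
  set d := (n + 1) ^ N with hd0
  have hdpos : 0 < d := by positivity
  have hαn : 0 < ‖α‖ := norm_pos_iff.mpr hα
  have hnr : ∀ r : ℝ, 0 < r → ‖((r : ℂ))⁻¹‖ = r⁻¹ := by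
    intro r hr
    rw [norm_inv, Complex.norm_real, Real.norm_eq_abs, abs_of_pos hr]
  have hlev' : R₄ ≤ ‖(QQ a n)^[N] ((s' : ℂ)⁻¹)‖ := by
    rw [← hlev, hQ, hQ, norm_mul, norm_mul, norm_pow, norm_pow, hnr s hs, hnr s' hs']
    have : s⁻¹ ≤ s'⁻¹ := inv_anti₀ hs' hs's
    gcongr
  -- the value at infinity
  have hz3 : R₃ < ‖(fx a n x)^[N] z‖ := by linarith
  set w' := φ (x, (fx a n x)^[N] z) with hw'
  have hψw : ψ (x, w') = (fx a n x)^[N] z := hb.ψφ x hx.1 _ hz3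
  have hw'n : ‖(QQ a n)^[N] ((s' : ℂ)⁻¹)‖ < ‖w'‖ := by
    have h1 := hb.φc x hx.1 _ hz3
    have h2 := norm_sub_norm_le ((fx a n x)^[N] z) w'
    rw [norm_sub_rev] at h2
    linarith
  obtain ⟨v, hv⟩ : ∃ v : ℂ, v ^ d = w' / α := IsAlgClosed.exists_pow_nat_eq _ hdpos
  have hQv : (QQ a n)^[N] v = w' := by
    rw [hQ, hv, mul_div_cancel₀ _ hα]
  have hv0 : v ≠ 0 := by
    rintro rfl
    rw [hQ, zero_pow hdpos.ne', mul_zero] at hQv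
    rw [← hQv, norm_zero] at hw'n
    linarith
  have hvs : s'⁻¹ < ‖v‖ := by
    rw [← hQv, hQ, hQ, norm_mul, norm_mul, norm_pow, norm_pow, hnr s' hs'] at hw'n
    by_contra hcon
    push Not at hcon
    have := mul_le_mul_of_nonneg_left (pow_le_pow_left₀ (norm_nonneg v) hcon d) hαn.le
    linarith
  set ζ' := Complex.log v with hζ'
  have hexpζ' : Complex.exp ζ' = v := Complex.exp_log hv0
  have hζ'm : ζ' ∈ HH s := by
    show -Real.log s < (Complex.log v).re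
    rw [Complex.log_re, ← Real.log_inv]
    apply Real.log_lt_log (inv_pos.mpr hs)
    have : s⁻¹ ≤ s'⁻¹ := inv_anti₀ hs' hs's
    linarith
  -- the solution through `z`
  obtain ⟨Z, hZd, hZ0, hZe, -⟩ := rootX (N := N) (R₄ := R₄) ha hb hR hR4 (V := ℂ) (U := HH s)
    (HH_open s) (HH_convex s) (γ := fun _ => x) (ω := fun ζ => (QQ a n)^[N] (Complex.exp ζ))
    (differentiableOn_const x) (QQ_exp a n N).differentiableOn (fun _ _ => hx)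
    (fun ζ hζ => QQ_lt hR₄ hs hlev (exp_HH hs hζ)) hζ'm (u := z)
    (by rw [hexpζ', hQv, hψw])
  -- a far point
  obtain ⟨M, hM⟩ := (isCompact_closedBall (0 : ℂ) R₃).exists_bound_of_continuousOn
    (((fx_differentiable a n x).continuous.iterate N).continuousOn)
  obtain ⟨t₀, ht1, ht2, ht3⟩ : ∃ t : ℝ, (t : ℂ) ∈ HH s ∧ R₁ < ‖Complex.exp (t : ℂ)‖ ∧
      M + C₁ < ‖(QQ a n)^[N] (Complex.exp (t : ℂ))‖ := by
    obtain ⟨t, h1, h2⟩ := exists_far_real s (max R₁ (max 1 ((M + C₁) / ‖α‖)))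
      (lt_of_lt_of_le hR₁ (le_max_left _ _))
    rw [max_lt_iff, max_lt_iff] at h2
    refine ⟨t, h1, h2.1, ?_⟩
    rw [hQ, norm_mul, norm_pow]
    have h3 : ‖Complex.exp (t : ℂ)‖ ≤ ‖Complex.exp (t : ℂ)‖ ^ d :=
      le_self_pow₀ h2.2.1.le hdpos.ne'
    have h4 := h2.2.2
    rw [div_lt_iff₀ hαn] at h4
    nlinarith
  have hQt : R₄ < ‖(QQ a n)^[N] (Complex.exp (t₀ : ℂ))‖ := QQ_lt hR₄ hs hlev (exp_HH hs ht1)
  have hZt := hZe (t₀ : ℂ) ht1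
  have hZbig : R₃ < ‖Z (t₀ : ℂ)‖ := by
    by_contra hcon
    push Not at hcon
    have h1 := hM (Z (t₀ : ℂ)) (mem_closedBall_zero_iff.mpr hcon)
    rw [hZt] at h1
    have h2 := hb.ψc x hx.1 ((QQ a n)^[N] (Complex.exp (t₀ : ℂ))) (by linarith)
    have h3 := norm_sub_norm_le ((QQ a n)^[N] (Complex.exp (t₀ : ℂ)))
      (ψ (x, (QQ a n)^[N] (Complex.exp (t₀ : ℂ))))
    rw [norm_sub_rev] at h3
    linarith
  set y := φ (x, Z (t₀ : ℂ)) with hy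
  have hyn : R₁ < ‖y‖ := φ_norm hb hx.1 hZbig
  have hψy : ψ (x, y) = Z (t₀ : ℂ) := hb.ψφ x hx.1 _ hZbig
  have hQy : (QQ a n)^[N] y = (QQ a n)^[N] (Complex.exp (t₀ : ℂ)) := by
    apply hb.ψi x hx.1 (hb.QQ_iter hyn N) (show R₁ < _ by linarith)
    show ψ (x, (QQ a n)^[N] y) = ψ (x, (QQ a n)^[N] (Complex.exp (t₀ : ℂ)))
    rw [← hb.fe_iter hx.1 hyn N, hψy]
    exact hZt
  have hy0 : y ≠ 0 := by
    intro h
    rw [h, norm_zero] at hyn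
    linarith
  set κ := Complex.log y - (t₀ : ℂ) with hκ
  have hexpκ : Complex.exp ((t₀ : ℂ) + κ) = y := by
    rw [hκ, add_sub_cancel, Complex.exp_log hy0]
  have hκ1 : Complex.exp ((((n + 1) ^ N : ℕ) : ℂ) * κ) = 1 := by
    rw [Complex.exp_nat_mul, hκ, Complex.exp_sub, Complex.exp_log hy0, div_pow]
    rw [hQ, hQ] at hQy
    rw [← hd0, mul_left_cancel₀ hα hQy, div_self]
    exact pow_ne_zero _ (Complex.exp_ne_zero _)
  have hκre : κ.re = 0 := by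
    have h2 : ‖Complex.exp ((((n + 1) ^ N : ℕ) : ℂ) * κ)‖ = 1 := by rw [hκ1, norm_one]
    rw [Complex.norm_exp] at h2
    have h3 : (((((n + 1) ^ N : ℕ) : ℂ)) * κ).re = (((n + 1) ^ N : ℕ) : ℝ) * κ.re := by
      rw [← Complex.ofReal_natCast, Complex.re_ofReal_mul]
    rw [h3, Real.exp_eq_one_iff] at h2
    have h4 : (((n + 1) ^ N : ℕ) : ℝ) ≠ 0 := by positivity
    exact (mul_eq_zero.mp h2).resolve_left h4
  have hmem : ∀ ζ ∈ HH s, ζ + κ ∈ HH s := by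
    intro ζ hζ
    show -Real.log s < (ζ + κ).re
    rw [Complex.add_re, hκre, add_zero]
    exact hζ
  have h5 := slice_shift ha hb hR hR4 hs hlev hα hQ hd heq hx hκ1 hZd.continuousOn hZe ht1 (by
    rw [hfar x hx _ (hmem _ ht1) (by rw [hexpκ]; exact hyn), hexpκ]
    exact hψy.symm) ζ' hζ'm
  rw [hZ0] at h5
  refine ⟨Complex.exp (-(ζ' + κ)), Complex.exp_ne_zero _, ?_, ?_⟩
  · rw [Complex.norm_exp, Complex.neg_re, Complex.add_re, hκre, add_zero, Real.exp_neg,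
      ← Complex.norm_exp, hexpζ']
    exact (inv_lt_comm₀ (norm_pos_iff.mpr hv0) hs').mpr hvs
  · rw [inv_Gf (Complex.exp_ne_zero _), h5]
    apply hper x hx _ (hmem _ hζ'm)
    rw [exp_neg_log (Complex.exp_ne_zero _), ← Complex.exp_neg, neg_neg]

end

theorem ext_holds : S_EXT := by
  intro a n N B Rb C₁ R₁ R₃ R R₄ s ψ φ ha hn hb hR hR4 hs hlev
  have hlev' : ‖(QQ a n)^[N] ((s : ℂ)⁻¹)‖ = R₄ := hlev
  have g1 := hb.hR; have g2 := hb.hC; have g3 := hb.hR₁; have g4 := hb.hR₃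
  have hR₄ : 0 < R₄ := by linarith
  obtain ⟨Ψ, hd, heq, hfar, hper⟩ := exists_Psi ha hb hR hR4 hs hlev'
  refine ⟨Gf Ψ, ⟨hs, ?_, ?_, ?_, ?_, ?_, ?_⟩⟩
  · intro t ht hts
    apply QQ_lt hR₄ hs hlev'
    rw [norm_inv]
    exact (inv_lt_inv₀ hs (norm_pos_iff.2 ht)).2 hts
  · rintro ⟨x, t⟩ ⟨hx, ht⟩
    apply DifferentiableAt.differentiableWithinAt
    have hts : ‖t‖ < s := mem_ball_zero_iff.mp ht
    by_cases h0 : t = 0
    · subst h0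
      exact Gf_diff_zero hb hs hfar hx
    · exact Gf_diff_ne hs hd hper hx h0 hts
  · intro x _
    simp [Gf]
  · intro x hx t ht u hu ht0 hu0 h
    exact Gf_inj ha hb hR hR4 hs hlev' hd heq hfar hx (mem_ball_zero_iff.mp ht)
      (mem_ball_zero_iff.mp hu) ht0 hu0 h
  · intro x hx t ht0 hts hbig
    rw [inv_Gf ht0, hfar x hx _ (neg_log_mem ht0 hts) (by rw [exp_neg_log ht0]; exact hbig),
      exp_neg_log ht0]
  · intro x hx s' z hs' hs's hz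
    exact Gf_surj ha hb hR hR4 hs hlev' hd heq hfar hper hx hs' hs's hz

end Pool.Agent.W820.BM
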