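import Mathlib
import Pool.Agent.W820.BM.Asm4
import Pool.Agent.W820.BM.Ext4
import Pool.Agent.W174.BM.TC
import Pool.Agent.W397.BM.SH
import Pool.Agent.W973.BM.Fx
import Pool.Agent.W346.BM.AP2
import Pool.Agent.W346.BM.ATT
import Pool.Agent.W177.BM.PK

set_option autoImplicit false

open Topology Filter Metric Set Polynomial MeasureTheory
open Pool.Agent.H713R3.ZA

namespace Pool.Agent.W820.BM

/-- All types occur within the distance `C * sqrt (area K)`. -/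
theorem typeA {a : ℂ} (ha : a ≠ 0) {n : ℕ} (hn : 1 ≤ n) {c₀ : ℝ} (hc₀ : 0 ≤ c₀) :
    ∃ C : ℝ, 0 < C ∧ ∀ xT : PE n, ‖∑ i : Fin n, xT (some i)‖ ≤ c₀ →
      (∀ i, xT (some i) ∈ KJ (fam a n xT)) →
      volume (KJ (fam a n xT)) < ⊤ ∧
      ∀ ε : ℝ, C * Real.sqrt (volume (KJ (fam a n xT))).toReal < ε →
      ∀ (k : ℕ) (τ : Fin n → Option (Fin k)), (∀ j, ∃ i, τ i = some j) → ∀ N₀ : ℕ,
      ∃ (x : PE n) (p : Fin k → ℕ) (z : Fin k → ℂ) (r : Fin k → Fin n),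
        (∀ j : ℕ, ‖(fam a n x).coeff j - (fam a n xT).coeff j‖ < ε) ∧
        ∑ i : Fin n, x (some i) = ∑ i : Fin n, xT (some i) ∧ Concl a n k τ N₀ x p z r := by
  obtain ⟨B, hB, R₂, heng⟩ := engine Pool.Agent.W174.BM.tc Pool.Agent.W397.BM.sh
    Pool.Agent.W806.BM.main Pool.Agent.W346.BM.ap2 Pool.Agent.W346.BM.att ha hn hc₀
  obtain ⟨Rk, hpk⟩ := Pool.Agent.W177.BM.pk ext_holds a n B ha hn hB
  obtain ⟨C, hC, hpk⟩ := hpk (max Rk R₂) (le_max_left _ _)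
  refine ⟨C, hC, fun xT hsum hcrit => ?_⟩
  obtain ⟨hxB, -, heng⟩ := heng (max Rk R₂) (le_max_right _ _) xT hsum hcrit
  obtain ⟨hvol, hpk⟩ := hpk xT (mem_ball_zero_iff.mpr hxB) hcrit
  refine ⟨hvol, fun ε hε k τ hτ N₀ => ?_⟩
  obtain ⟨V, hV⟩ : ∃ V : ℝ, V = (volume (KJ (fam a n xT))).toReal := ⟨_, rfl⟩
  have hV0 : 0 ≤ V := by rw [hV]; exact ENNReal.toReal_nonneg
  rw [← hV] at hε
  obtain ⟨θ, hθ, hθε⟩ := exists_theta hC hε
  obtain ⟨N, h, hOo, hxTO, hdh, h0, hh⟩ := hpk θ hθ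
  rw [← hV] at hh
  obtain ⟨x, p, z, r, hxO, hxs, hre, hconcl⟩ := heng N h (V + θ) θ hdh h0 (by linarith) hθ
    (fun x hx hs => (hh x hx hs).1) k τ hτ N₀
  refine ⟨x, p, z, r, ?_, hxs, hconcl⟩
  intro j
  refine ((hh x hxO hxs).2 j).trans_lt (lt_of_le_of_lt ?_ hθε)
  apply mul_le_mul_of_nonneg_left _ hC.le
  apply Real.sqrt_le_sqrt
  linarith

/-- The peaking property: a polynomial with connected filled Julia set of zero area is almost a peak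
point for the connectedness locus. -/
theorem peakC {a : ℂ} (ha : a ≠ 0) {n : ℕ} (hn : 1 ≤ n) (xT : PE n)
    (hcrit : ∀ i, xT (some i) ∈ KJ (fam a n xT)) (hvol : volume (KJ (fam a n xT)) = 0)
    {ε : ℝ} (hε : 0 < ε) :
    ∃ (Ω : Set (PE n)) (h : PE n → ℂ) (δ : ℝ), IsOpen Ω ∧ DifferentiableOn ℂ h Ω ∧ 0 < δ ∧
      h xT = 0 ∧ ∀ x : PE n, ∑ i : Fin n, x (some i) = ∑ i : Fin n, xT (some i) →
        (∀ i, x (some i) ∈ KJ (fam a n x)) → x ∈ Ω ∧ (h x).re ≤ δ ^ 2 ∧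
          ((∃ j : ℕ, ε ≤ ‖(fam a n x).coeff j - (fam a n xT).coeff j‖) → (h x).re ≤ -δ) := by
  obtain ⟨B, hB, R₂, heng⟩ := engine Pool.Agent.W174.BM.tc Pool.Agent.W397.BM.sh
    Pool.Agent.W806.BM.main Pool.Agent.W346.BM.ap2 Pool.Agent.W346.BM.att ha hn
    (c₀ := ‖∑ i : Fin n, xT (some i)‖) (norm_nonneg _)
  obtain ⟨Rk, hpk⟩ := Pool.Agent.W177.BM.pk ext_holds a n B ha hn hB
  obtain ⟨C, hC, hpk⟩ := hpk (max Rk R₂) (le_max_left _ _)
  have heng := heng (max Rk R₂) (le_max_right _ _)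
  obtain ⟨hxB, -, -⟩ := heng xT le_rfl hcrit
  obtain ⟨-, hpk⟩ := hpk xT (mem_ball_zero_iff.mpr hxB) hcrit
  rw [hvol, ENNReal.toReal_zero] at hpk
  -- choose δ
  obtain ⟨δ, hδ, hδ1, hδ2⟩ : ∃ δ : ℝ, 0 < δ ∧ δ ≤ 1 ∧ 2 * δ ≤ (ε / C) ^ 2 := by
    refine ⟨min 1 ((ε / C) ^ 2 / 2), lt_min one_pos (by positivity), min_le_left _ _, ?_⟩
    have := min_le_right 1 ((ε / C) ^ 2 / 2)
    linarith
  obtain ⟨N, h, hOo, hxTO, hdh, h0, hh⟩ := hpk (δ ^ 2) (by positivity)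
  refine ⟨OmN a n N B (max Rk R₂), h, δ, hOo, hdh, hδ, h0, ?_⟩
  intro x hxs hx
  have hsx : ‖∑ i : Fin n, x (some i)‖ ≤ ‖∑ i : Fin n, xT (some i)‖ := by rw [hxs]
  obtain ⟨hxB', horb, -⟩ := heng x hsx hx
  have hxO : x ∈ OmN a n N B (max Rk R₂) :=
    ⟨mem_ball_zero_iff.mpr hxB', fun i j _ _ => horb i j⟩
  obtain ⟨h1, h2⟩ := hh x hxO hxs
  rw [zero_add] at h1
  refine ⟨hxO, h1, ?_⟩
  rintro ⟨j, hj⟩
  have h3 := hj.trans (h2 j)
  rw [zero_add] at h3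
  have h4 : ε / C ≤ Real.sqrt (δ ^ 2 - (h x).re) := by
    rw [div_le_iff₀ hC]; linarith
  have h5 : (ε / C) ^ 2 ≤ δ ^ 2 - (h x).re := by
    rw [Real.le_sqrt' (by positivity)] at h4
    exact h4
  nlinarith

/-- Labelled version for zero area. -/
theorem typeB {a : ℂ} (ha : a ≠ 0) {n : ℕ} (hn : 1 ≤ n) (xT : PE n)
    (hcrit : ∀ i, xT (some i) ∈ KJ (fam a n xT)) (hvol : volume (KJ (fam a n xT)) = 0)
    {ε : ℝ} (hε : 0 < ε) (k : ℕ) (τ : Fin n → Option (Fin k)) (hτ : ∀ j, ∃ i, τ i = some j)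
    (N₀ : ℕ) :
    ∃ (x : PE n) (p : Fin k → ℕ) (z : Fin k → ℂ) (r : Fin k → Fin n),
      (∀ j : ℕ, ‖(fam a n x).coeff j - (fam a n xT).coeff j‖ < ε) ∧ ‖x - xT‖ < ε ∧
      ∑ i : Fin n, x (some i) = ∑ i : Fin n, xT (some i) ∧ Concl a n k τ N₀ x p z r := by
  classical
  obtain ⟨B, hB, R₂, heng⟩ := engine Pool.Agent.W174.BM.tc Pool.Agent.W397.BM.sh
    Pool.Agent.W806.BM.main Pool.Agent.W346.BM.ap2 Pool.Agent.W346.BM.att ha hn
    (c₀ := ‖∑ i : Fin n, xT (some i)‖) (norm_nonneg _)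
  obtain ⟨Rk, hpk⟩ := Pool.Agent.W177.BM.pk ext_holds a n B ha hn hB
  obtain ⟨C, hC, hpk⟩ := hpk (max Rk R₂) (le_max_left _ _)
  obtain ⟨hxB, -, heng⟩ := heng (max Rk R₂) (le_max_right _ _) xT le_rfl hcrit
  obtain ⟨-, hpk⟩ := hpk xT (mem_ball_zero_iff.mpr hxB) hcrit
  rw [hvol, ENNReal.toReal_zero] at hpk
  -- the gap
  set L : ℝ := n * ‖xT‖ with hL
  have hL0 : 0 ≤ L := by positivity
  obtain ⟨g, hg, hgap⟩ : ∃ g : ℝ, 0 < g ∧ ∀ σ : Equiv.Perm (Fin n), permP σ xT ≠ xT →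
      (qf xT (permP σ xT)).re + g ≤ (qf xT xT).re := by
    by_cases hne : ∃ σ : Equiv.Perm (Fin n), permP σ xT ≠ xT
    · set F : Finset (Equiv.Perm (Fin n)) := Finset.univ.filter (fun σ => permP σ xT ≠ xT) with hF
      have hFne : F.Nonempty := by
        obtain ⟨σ, hσ⟩ := hne
        exact ⟨σ, by simp [hF, hσ]⟩
      obtain ⟨σ₀, hσ₀, hmin⟩ := F.exists_min_image
        (fun σ => (qf xT xT).re - (qf xT (permP σ xT)).re) hFne
      refine ⟨(qf xT xT).re - (qf xT (permP σ₀ xT)).re, ?_, ?_⟩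
      · have := qf_gap xT σ₀ (by simpa [hF] using hσ₀)
        linarith
      · intro σ hσ
        have := hmin σ (by simp [hF, hσ])
        linarith
    · exact ⟨1, one_pos, fun σ hσ => absurd ⟨σ, hσ⟩ hne⟩
  obtain ⟨ε₂, hε₂, hε₂1, hε₂2⟩ : ∃ ε₂ : ℝ, 0 < ε₂ ∧ ε₂ ≤ ε ∧ L * ε₂ ≤ g / 2 := by
    refine ⟨min ε (g / (2 * (L + 1))), lt_min hε (by positivity), min_le_left _ _, ?_⟩
    calc L * min ε (g / (2 * (L + 1))) ≤ L * (g / (2 * (L + 1))) :=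
          mul_le_mul_of_nonneg_left (min_le_right _ _) hL0
      _ = g / 2 * (L / (L + 1)) := by field_simp
      _ ≤ g / 2 * 1 := by
          apply mul_le_mul_of_nonneg_left _ (by positivity)
          rw [div_le_one (by positivity)]
          linarith
      _ = g / 2 := mul_one _
  obtain ⟨ε₁, hε₁, hclose⟩ := close_perm ha xT B hε₂
  -- the parameters
  set ε₃ : ℝ := min ε₁ (ε / 2) with hε₃
  have hε₃0 : 0 < ε₃ := lt_min hε₁ (by positivity)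
  obtain ⟨δ, hδ, hδ1⟩ : ∃ δ : ℝ, 0 < δ ∧ C * Real.sqrt (δ * (2 + 2 * (L * B))) ≤ ε₃ := by
    refine ⟨(ε₃ / C) ^ 2 / (2 + 2 * (L * B)), by positivity, ?_⟩
    rw [div_mul_cancel₀ _ (by positivity), Real.sqrt_sq (by positivity), mul_div_cancel₀ _ hC.ne']
  obtain ⟨θ, hθ, hθ1, hθ2⟩ : ∃ θ : ℝ, 0 < θ ∧ θ ≤ δ ∧ θ ≤ δ * g / 8 :=
    ⟨min δ (δ * g / 8), lt_min hδ (by positivity), min_le_left _ _, min_le_right _ _⟩
  obtain ⟨N, h, hOo, hxTO, hdh, h0, hh⟩ := hpk θ hθ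
  simp only [zero_add] at hh
  have hqb : ∀ x : PE n, ‖x‖ ≤ B → |(qf xT x).re - (qf xT xT).re| ≤ 2 * (L * B) := by
    intro x hx
    rw [← Complex.sub_re]
    refine (Complex.abs_re_le_norm _).trans ((qf_lip xT x xT).trans ?_)
    have : ‖x - xT‖ ≤ 2 * B := (norm_sub_le _ _).trans (by linarith)
    calc n * ‖xT‖ * ‖x - xT‖ ≤ L * (2 * B) := mul_le_mul_of_nonneg_left this hL0
      _ = _ := by ring
  obtain ⟨x, p, z, r, hxO, hxs, hre, hconcl⟩ := heng N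
    (fun x => h x + (δ : ℂ) * (qf xT x - qf xT xT)) (θ + δ * (2 * (L * B))) θ
    (hdh.add ((((qf_differentiable xT).sub_const _).const_mul _).differentiableOn))
    (by simp [h0]) (by positivity) hθ (by
      intro x hx hs
      rw [Complex.add_re, Complex.re_ofReal_mul, Complex.sub_re]
      have h1 := (hh x hx hs).1
      have h2 := (abs_le.mp (hqb x (mem_ball_zero_iff.mp hx.1).le)).2
      have h3 := mul_le_mul_of_nonneg_left h2 hδ.le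
      linarith) k τ hτ N₀
  have hxB' : ‖x‖ < B := mem_ball_zero_iff.mp hxO.1
  have hre' : -θ ≤ (h x).re + δ * ((qf xT x).re - (qf xT xT).re) := by
    rw [Complex.add_re, Complex.re_ofReal_mul, Complex.sub_re] at hre
    exact hre
  obtain ⟨h1, h2⟩ := hh x hxO hxs
  have h3 : ∀ j : ℕ, ‖(fam a n x).coeff j - (fam a n xT).coeff j‖ ≤ ε₃ := by
    intro j
    refine (h2 j).trans (le_trans ?_ hδ1)
    apply mul_le_mul_of_nonneg_left _ hC.le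
    apply Real.sqrt_le_sqrt
    have h4 := (abs_le.mp (hqb x hxB'.le)).2
    have h5 := mul_le_mul_of_nonneg_left h4 hδ.le
    nlinarith
  obtain ⟨σ, hσ⟩ := hclose x hxB'.le (fun j => (h3 j).trans (min_le_left _ _))
  have hσ1 : permP σ xT = xT := by
    by_contra hcon
    have h4 := hgap σ hcon
    have h5 : (qf xT x).re ≤ (qf xT (permP σ xT)).re + L * ‖x - permP σ xT‖ := by
      have h6 := (le_abs_self _).trans ((Complex.abs_re_le_norm _).trans (qf_lip xT x (permP σ xT)))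
      rw [Complex.sub_re] at h6
      linarith
    have h6 : L * ‖x - permP σ xT‖ ≤ g / 2 :=
      (mul_le_mul_of_nonneg_left hσ.le hL0).trans hε₂2
    have h7 : (qf xT x).re - (qf xT xT).re ≤ -(g / 2) := by linarith
    have h8 := mul_le_mul_of_nonneg_left h7 hδ.le
    have h9 : 0 < δ * g := by positivity
    nlinarith
  rw [hσ1] at hσ
  refine ⟨x, p, z, r, ?_, hσ.trans_le hε₂1, hxs, hconcl⟩
  intro j
  refine lt_of_le_of_lt ((h3 j).trans (min_le_right _ _)) (by linarith)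

end Pool.Agent.W820.BM
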