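import Mathlib
import Pool.Agent.W820.BM.Asm5

set_option autoImplicit false

open Topology Filter Metric Set Polynomial MeasureTheory
open Pool.Agent.H713R3.ZA

namespace Pool.Agent.W820.BM

theorem coeff_n {n : ℕ} (hn : 1 ≤ n) (a : ℂ) (x : PE n) :
    (fam a n x).coeff n = -(a * ((n : ℂ) + 1) / n) * ∑ i : Fin n, x (some i) := by
  obtain ⟨m, rfl⟩ : ∃ m, n = m + 1 := ⟨n - 1, by omega⟩
  rw [coeff_fam_succ, if_pos (by omega)]
  unfold dfam
  rw [coeff_C_mul]
  have h := prod_X_sub_C_coeff_card_pred (Finset.univ : Finset (Fin (m + 1)))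
    (fun i => x (some i)) (by simp)
  rw [Finset.card_univ, Fintype.card_fin, Nat.add_sub_cancel] at h
  rw [h]
  push_cast
  ring

theorem fam_of_deriv {n : ℕ} {T : ℂ[X]} {c : Fin n → ℂ}
    (h : derivative T = C (((n : ℂ) + 1) * T.leadingCoeff) * ∏ i, (X - C (c i))) :
    fam T.leadingCoeff n (fun o => o.elim (T.coeff 0) c) = T := by
  apply Pool.Agent.W806.BM.poly_eq (z := 0)
  · rw [derivative_fam, h]
    unfold dfam
    rw [mul_comm (T.leadingCoeff)]
    rfl
  · rw [← coeff_zero_eq_eval_zero, coeff_fam_zero, ← coeff_zero_eq_eval_zero]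
    rfl

theorem leadingCoeff_fam {a : ℂ} (ha : a ≠ 0) (n : ℕ) (x : PE n) :
    (fam a n x).leadingCoeff = a := by
  rw [leadingCoeff, natDegree_fam ha, coeff_fam_top]

/-- exact period -/
theorem minPer {f : ℂ → ℂ} {p : ℕ} {z : ℂ} (hp : p.Prime) (hz : f^[p] z = z) (hne : f z ≠ z) :
    Function.minimalPeriod f z = p := by
  have h1 : Function.IsPeriodicPt f p z := hz
  rcases (Nat.dvd_prime hp).mp h1.minimalPeriod_dvd with h | h
  · exfalso
    apply hne
    have := Function.isPeriodicPt_minimalPeriod f z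
    rw [h] at this
    simpa [Function.IsPeriodicPt, Function.IsFixedPt] using this
  · exact h

end Pool.Agent.W820.BM
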