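import Mathlib
import Pool.Agent.W820.BM.Asm6

set_option autoImplicit false

open Topology Filter Metric Set Polynomial MeasureTheory
open Pool.Agent.H713R3.ZA

namespace Pool.Agent.W820.BM

/-- The peak function, up to the area of the filled Julia set. -/
theorem peakQ {a : ℂ} (ha : a ≠ 0) {n : ℕ} (hn : 1 ≤ n) {c₀ : ℝ} (hc₀ : 0 ≤ c₀) :
    ∃ C : ℝ, 0 < C ∧ ∀ xT : PE n, ‖∑ i : Fin n, xT (some i)‖ ≤ c₀ →
      (∀ i, xT (some i) ∈ KJ (fam a n xT)) → volume (KJ (fam a n xT)) < ⊤ ∧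
      ∀ δ : ℝ, 0 < δ →
      ∃ (Ω : Set (PE n)) (h : PE n → ℂ), IsOpen Ω ∧ DifferentiableOn ℂ h Ω ∧ h xT = 0 ∧
        ∀ x : PE n, ∑ i : Fin n, x (some i) = ∑ i : Fin n, xT (some i) →
          (∀ i, x (some i) ∈ KJ (fam a n x)) → x ∈ Ω ∧ ∀ j : ℕ,
            (h x).re + (‖(fam a n x).coeff j - (fam a n xT).coeff j‖ / C) ^ 2 ≤
              (volume (KJ (fam a n xT))).toReal + δ := by
  obtain ⟨B, hB, R₂, heng⟩ := engine Pool.Agent.W174.BM.tc Pool.Agent.W397.BM.sh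
    Pool.Agent.W806.BM.main Pool.Agent.W346.BM.ap2 Pool.Agent.W346.BM.att ha hn hc₀
  obtain ⟨Rk, hpk⟩ := Pool.Agent.W177.BM.pk ext_holds a n B ha hn hB
  obtain ⟨C, hC, hpk⟩ := hpk (max Rk R₂) (le_max_left _ _)
  refine ⟨C, hC, fun xT hsum hcrit => ?_⟩
  have heng := heng (max Rk R₂) (le_max_right _ _)
  obtain ⟨hxB, -, -⟩ := heng xT hsum hcrit
  obtain ⟨hvol, hpk⟩ := hpk xT (mem_ball_zero_iff.mpr hxB) hcrit
  refine ⟨hvol, fun δ hδ => ?_⟩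
  obtain ⟨N, h, hOo, hxTO, hdh, h0, hh⟩ := hpk δ hδ
  refine ⟨OmN a n N B (max Rk R₂), h, hOo, hdh, h0, ?_⟩
  intro x hxs hx
  have hsx : ‖∑ i : Fin n, x (some i)‖ ≤ c₀ := by rw [hxs]; exact hsum
  obtain ⟨hxB', horb, -⟩ := heng x hsx hx
  have hxO : x ∈ OmN a n N B (max Rk R₂) :=
    ⟨mem_ball_zero_iff.mpr hxB', fun i j _ _ => horb i j⟩
  obtain ⟨h1, h2⟩ := hh x hxO hxs
  refine ⟨hxO, fun j => ?_⟩
  have h3 : ‖(fam a n x).coeff j - (fam a n xT).coeff j‖ / C ≤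
      Real.sqrt ((volume (KJ (fam a n xT))).toReal + δ - (h x).re) := by
    rw [div_le_iff₀ hC, mul_comm]
    exact h2 j
  have h4 := (Real.le_sqrt (by positivity) (by linarith)).mp h3
  linarith

/-- The sum of the critical points and the second coefficient. -/
theorem sum_bound {n : ℕ} (hn : 1 ≤ n) {a : ℂ} (ha : a ≠ 0) {b : ℝ} {x : PE n}
    (h : ‖(fam a n x).coeff n‖ ≤ b) : ‖∑ i : Fin n, x (some i)‖ ≤ |b| / ‖a‖ := by
  rw [coeff_n hn, norm_mul, norm_neg, norm_div, norm_mul] at h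
  have hn0 : (0 : ℝ) < n := by exact_mod_cast hn
  have h1 : ‖(n : ℂ)‖ = n := by simp
  have h2 : ‖(n : ℂ) + 1‖ = n + 1 := by
    have : ((n : ℂ) + 1) = ((n + 1 : ℕ) : ℂ) := by push_cast; rfl
    rw [this, Complex.norm_natCast]
    push_cast
    rfl
  rw [h1, h2] at h
  have ha' : 0 < ‖a‖ := norm_pos_iff.mpr ha
  rw [le_div_iff₀ ha']
  have h3 : ‖a‖ ≤ ‖a‖ * ((n : ℝ) + 1) / n := by
    rw [le_div_iff₀ hn0]
    nlinarith
  calc ‖∑ i : Fin n, x (some i)‖ * ‖a‖ ≤ ‖∑ i : Fin n, x (some i)‖ * (‖a‖ * ((n : ℝ) + 1) / n) :=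
        mul_le_mul_of_nonneg_left h3 (norm_nonneg _)
    _ ≤ b := by rw [mul_comm]; exact h
    _ ≤ |b| := le_abs_self b

theorem coeff_eq_iff {n : ℕ} (hn : 1 ≤ n) {a : ℂ} (ha : a ≠ 0) (x y : PE n) :
    (fam a n x).coeff n = (fam a n y).coeff n ↔
      ∑ i : Fin n, x (some i) = ∑ i : Fin n, y (some i) := by
  rw [coeff_n hn, coeff_n hn]
  have hn0 : (n : ℂ) ≠ 0 := by
    have : n ≠ 0 := by omega
    exact_mod_cast this
  have h1 : -(a * ((n : ℂ) + 1) / n) ≠ 0 :=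
    neg_ne_zero.mpr (div_ne_zero (mul_ne_zero ha (Nat.cast_add_one_ne_zero n)) hn0)
  exact mul_right_inj' h1

end Pool.Agent.W820.BM
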